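import Mathlib

/-! Internal form of admissibility and the monomials. -/

namespace Pool.Agent.Lib.MP_23fb81_pr

open MeasureTheory
open scoped ComplexConjugate

/-- internal form: `G : ℂ → ℂ → ℂ` acts on pairs of characteristic functions. -/
def Adm (G : ℂ → ℂ → ℂ) : Prop :=
  ∀ μ₁ μ₂ : Measure ℝ, IsProbabilityMeasure μ₁ → IsProbabilityMeasure μ₂ →
    ∃ ν : Measure ℝ, IsProbabilityMeasure ν ∧
      ∀ t : ℝ, charFun ν t = G (charFun μ₁ t) (charFun μ₂ t)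

/-- The monomial `z^j z̄^k w^l w̄^m`. -/
def mono (I : ℕ × ℕ × ℕ × ℕ) (z w : ℂ) : ℂ :=
  z ^ I.1 * conj z ^ I.2.1 * w ^ I.2.2.1 * conj w ^ I.2.2.2

end Pool.Agent.Lib.MP_23fb81_pr
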