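import Pool.Agent.Lib.MP_23fb81_pr.Suff

set_option autoImplicit false

open MeasureTheory ComplexConjugate Filter Topology

namespace Pool.Agent.Lib.MP_23fb81_pr

lemma continuous_mono (i : ℕ × ℕ × ℕ × ℕ) : Continuous (fun p : ℂ × ℂ => mono i p.1 p.2) := by
  unfold mono
  fun_prop

/-- The closed bidisc. -/
def bidisc : Set (ℂ × ℂ) := {p | ‖p.1‖ ≤ 1 ∧ ‖p.2‖ ≤ 1}

lemma series_continuousOn (a : ℕ × ℕ × ℕ × ℕ → ℝ) (ha : ∀ i, 0 ≤ a i) (hs : Summable a) :
    ContinuousOn (fun p : ℂ × ℂ => ∑' i, (a i : ℂ) * mono i p.1 p.2) bidisc := by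
  apply continuousOn_tsum (u := a)
  · intro i
    exact (continuous_const.mul (continuous_mono i)).continuousOn
  · exact hs
  · intro i p hp
    rw [norm_mul, Complex.norm_real, Real.norm_of_nonneg (ha i)]
    exact mul_le_of_le_one_right (ha i) (norm_mono_le i _ _ hp.1 hp.2)

/-- Finite mixtures of point masses. -/
noncomputable def mix {ι : Type*} [Fintype ι] (p : ι → ℝ) (τ : ι → ℝ) : Measure ℝ :=
  ∑ i, ENNReal.ofReal (p i) • Measure.dirac (τ i)

lemma mix_prob {ι : Type*} [Fintype ι] (p : ι → ℝ) (τ : ι → ℝ) (hp : ∀ i, 0 ≤ p i)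
    (hsum : ∑ i, p i = 1) : IsProbabilityMeasure (mix p τ) := by
  constructor
  unfold mix
  rw [Measure.finsetSum_apply]
  simp only [Measure.smul_apply, measure_univ, smul_eq_mul, mul_one]
  rw [← ENNReal.ofReal_sum_of_nonneg (fun i _ => hp i), hsum, ENNReal.ofReal_one]

lemma charFun_mix {ι : Type*} [Fintype ι] (p : ι → ℝ) (τ : ι → ℝ) (hp : ∀ i, 0 ≤ p i) (t : ℝ) :
    charFun (mix p τ) t = ∑ i, (p i : ℂ) * Complex.exp (t * τ i * Complex.I) := by
  rw [charFun_apply_real]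
  unfold mix
  rw [integral_finsetSum_measure]
  · apply Finset.sum_congr rfl
    intro i _
    rw [integral_smul_measure, integral_dirac, ENNReal.toReal_ofReal (hp i)]
    rfl
  · intro i _
    have : IsFiniteMeasure (ENNReal.ofReal (p i) • Measure.dirac (τ i)) := by
      refine ⟨?_⟩
      simp [Measure.smul_apply]
    exact charFun_integrable _ t

/-- Every point of the closed disc is the value at `1` of a characteristic function whose
modulus is `< 1` immediately to the right of `1`. -/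
lemma exists_touching (x : ℂ) (hx : ‖x‖ ≤ 1) :
    ∃ μ : Measure ℝ, IsProbabilityMeasure μ ∧ charFun μ 1 = x ∧
      ∀ t : ℝ, 1 < t → t < 3 / 2 → ‖charFun μ t‖ < 1 := by
  set r := ‖x‖ with hr
  set θ := x.arg with hθ
  have hr0 : 0 ≤ r := norm_nonneg _
  let p : Fin 3 → ℝ := ![(1 + r) / 4, (1 + r) / 4, (1 - r) / 2]
  let τ : Fin 3 → ℝ := ![θ, θ + 2 * Real.pi, θ + Real.pi]
  have hp : ∀ i, 0 ≤ p i := by
    intro i
    fin_cases i
    · show 0 ≤ (1 + r) / 4
      linarith
    · show 0 ≤ (1 + r) / 4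
      linarith
    · show 0 ≤ (1 - r) / 2
      linarith
  have hsum : ∑ i, p i = 1 := by
    rw [Fin.sum_univ_three]
    show (1 + r) / 4 + (1 + r) / 4 + (1 - r) / 2 = 1
    ring
  have hcf : ∀ t : ℝ, charFun (mix p τ) t = (((1 + r) / 4 : ℝ) : ℂ) * Complex.exp (t * θ * Complex.I)
      + (((1 + r) / 4 : ℝ) : ℂ) * Complex.exp (t * (θ + 2 * Real.pi : ℝ) * Complex.I)
      + (((1 - r) / 2 : ℝ) : ℂ) * Complex.exp (t * (θ + Real.pi : ℝ) * Complex.I) := by
    intro t
    rw [charFun_mix p τ hp, Fin.sum_univ_three]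
    rfl
  refine ⟨mix p τ, mix_prob p τ hp hsum, ?_, ?_⟩
  · rw [hcf]
    have h1 : Complex.exp (((1:ℝ):ℂ) * (θ + 2 * Real.pi : ℝ) * Complex.I) =
        Complex.exp (θ * Complex.I) := by
      have : (((1:ℝ):ℂ) * (θ + 2 * Real.pi : ℝ) * Complex.I) =
          θ * Complex.I + 2 * Real.pi * Complex.I := by push_cast; ring
      rw [this, Complex.exp_add, Complex.exp_two_pi_mul_I, mul_one]
    have h2 : Complex.exp (((1:ℝ):ℂ) * (θ + Real.pi : ℝ) * Complex.I) =
        - Complex.exp (θ * Complex.I) := by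
      have : (((1:ℝ):ℂ) * (θ + Real.pi : ℝ) * Complex.I) =
          θ * Complex.I + Real.pi * Complex.I := by push_cast; ring
      rw [this, Complex.exp_add, Complex.exp_pi_mul_I]
      ring
    have h0 : Complex.exp (((1:ℝ):ℂ) * θ * Complex.I) = Complex.exp (θ * Complex.I) := by
      simp
    rw [h0, h1, h2]
    have h3 := Complex.norm_mul_exp_arg_mul_I x
    rw [← hr, ← hθ] at h3
    calc _ = (r : ℂ) * Complex.exp (θ * Complex.I) := by push_cast; ring
      _ = x := h3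
  · intro t ht1 ht2
    rw [hcf]
    have e1 : Complex.exp (t * (θ + 2 * Real.pi : ℝ) * Complex.I) =
        Complex.exp (t * (θ + Real.pi : ℝ) * Complex.I) * Complex.exp ((t * Real.pi : ℝ) * Complex.I) := by
      rw [← Complex.exp_add]
      congr 1
      push_cast
      ring
    have e2 : Complex.exp (t * θ * Complex.I) =
        Complex.exp (t * (θ + Real.pi : ℝ) * Complex.I) * Complex.exp (-(t * Real.pi : ℝ) * Complex.I) := by
      rw [← Complex.exp_add]
      congr 1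
      push_cast
      ring
    have hcos : Complex.exp (-(t * Real.pi : ℝ) * Complex.I) + Complex.exp ((t * Real.pi : ℝ) * Complex.I)
        = ((2 * Real.cos (t * Real.pi) : ℝ) : ℂ) := by
      push_cast
      rw [Complex.cos]
      ring
    have hE : ‖Complex.exp (t * (θ + Real.pi : ℝ) * Complex.I)‖ = 1 := by
      have : (t * (θ + Real.pi : ℝ) * Complex.I : ℂ) = ((t * (θ + Real.pi) : ℝ) : ℂ) * Complex.I := by
        push_cast; ring
      rw [this, Complex.norm_exp_ofReal_mul_I]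
    have key : (((1 + r) / 4 : ℝ) : ℂ) * Complex.exp (t * θ * Complex.I)
      + (((1 + r) / 4 : ℝ) : ℂ) * Complex.exp (t * (θ + 2 * Real.pi : ℝ) * Complex.I)
      + (((1 - r) / 2 : ℝ) : ℂ) * Complex.exp (t * (θ + Real.pi : ℝ) * Complex.I)
      = Complex.exp (t * (θ + Real.pi : ℝ) * Complex.I) *
        (((1 + r) / 2 * Real.cos (t * Real.pi) + (1 - r) / 2 : ℝ) : ℂ) := by
      rw [e1, e2]
      calc _ = Complex.exp (t * (θ + Real.pi : ℝ) * Complex.I) * ((((1 + r) / 4 : ℝ) : ℂ) *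
            (Complex.exp (-(t * Real.pi : ℝ) * Complex.I) + Complex.exp ((t * Real.pi : ℝ) * Complex.I))
            + (((1 - r) / 2 : ℝ) : ℂ)) := by ring
        _ = _ := by
          rw [hcos]
          push_cast
          ring
    rw [key, norm_mul, hE, one_mul, Complex.norm_real, Real.norm_eq_abs]
    have hcoslt : Real.cos (t * Real.pi) < 1 := by
      rcases (Real.cos_le_one (t * Real.pi)).lt_or_eq with h | h
      · exact h
      · exfalso
        have hpos := Real.pi_pos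
        have hneg : Real.cos (t * Real.pi) ≤ 0 := by
          apply Real.cos_nonpos_of_pi_div_two_le_of_le
          · nlinarith
          · nlinarith
        linarith
    have hcosgt : -1 < Real.cos (t * Real.pi) := by
      have hpos := Real.pi_pos
      have h1 : Real.cos (t * Real.pi) = - Real.cos ((t - 1) * Real.pi) := by
        have : t * Real.pi = (t - 1) * Real.pi + Real.pi := by ring
        rw [this, Real.cos_add_pi]
      rw [h1]
      have h2 : Real.cos ((t - 1) * Real.pi) < Real.cos 0 := by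
        apply Real.cos_lt_cos_of_nonneg_of_le_pi le_rfl
        · nlinarith
        · nlinarith
      rw [Real.cos_zero] at h2
      linarith
    rw [abs_lt]
    have hx1 : 0 < (1 + r) / 2 := by linarith
    constructor
    · nlinarith
    · nlinarith

theorem Adm.one_one {G : ℂ → ℂ → ℂ} (hG : Adm G) : G 1 1 = 1 := by
  obtain ⟨ν, hν, hνF⟩ := hG (Measure.dirac 0) (Measure.dirac 0) inferInstance inferInstance
  have h := hνF 0
  simpa using h.symm

theorem exists_charFun_eq (z : ℂ) (hz : ‖z‖ ≤ 1) :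
    ∃ μ : Measure ℝ, IsProbabilityMeasure μ ∧ charFun μ 1 = z := by
  obtain ⟨μ, h1, h2, _⟩ := exists_touching z hz
  exact ⟨μ, h1, h2⟩

theorem Adm.norm_le_one {G : ℂ → ℂ → ℂ} (hG : Adm G) (z w : ℂ) (hz : ‖z‖ ≤ 1) (hw : ‖w‖ ≤ 1) :
    ‖G z w‖ ≤ 1 := by
  obtain ⟨μ₁, h₁, e₁⟩ := exists_charFun_eq z hz
  obtain ⟨μ₂, h₂, e₂⟩ := exists_charFun_eq w hw
  obtain ⟨ν, hν, hνG⟩ := hG μ₁ μ₂ h₁ h₂
  rw [← e₁, ← e₂, ← hνG 1]
  exact norm_charFun_le_one 1

/-- Boundary step: a series representation on the open bidisc extends to the closed one, and the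
coefficients then sum to one. -/
theorem boundary (G : ℂ → ℂ → ℂ) (hG : Adm G) (a : ℕ × ℕ × ℕ × ℕ → ℝ)
    (ha : ∀ n, 0 ≤ a n) (hsum : Summable a)
    (hopen : ∀ z w : ℂ, ‖z‖ < 1 → ‖w‖ < 1 → HasSum (fun n => (a n : ℂ) * mono n z w) (G z w)) :
    HasSum a 1 ∧ ∀ z w : ℂ, ‖z‖ ≤ 1 → ‖w‖ ≤ 1 →
      HasSum (fun n => (a n : ℂ) * mono n z w) (G z w) := by
  have hser : ∀ x y : ℂ, ‖x‖ < 1 → ‖y‖ < 1 → G x y = ∑' i, (a i : ℂ) * mono i x y :=
    fun x y hx hy => (hopen x y hx hy).tsum_eq.symm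
  have hclosed : ∀ x y : ℂ, ‖x‖ ≤ 1 → ‖y‖ ≤ 1 → G x y = ∑' i, (a i : ℂ) * mono i x y := by
    intro x y hx hy
    obtain ⟨μ₁, h₁, hx1, hx2⟩ := exists_touching x hx
    obtain ⟨μ₂, h₂, hy1, hy2⟩ := exists_touching y hy
    obtain ⟨ν, hν, hνF⟩ := hG μ₁ μ₂ h₁ h₂
    have hc1 : Continuous (charFun μ₁) := continuous_charFun
    have hc2 : Continuous (charFun μ₂) := continuous_charFun
    have hcν : Continuous (charFun ν) := continuous_charFun
    have hmem : ∀ᶠ t : ℝ in 𝓝[>] 1, t ∈ Set.Ioo (1:ℝ) (3/2) := Ioo_mem_nhdsGT (by norm_num)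
    have hlim1 : Tendsto (charFun ν) (𝓝[>] 1) (𝓝 (charFun ν 1)) :=
      (hcν.tendsto 1).mono_left nhdsWithin_le_nhds
    have hlim2 : Tendsto (fun t : ℝ => ∑' i, (a i : ℂ) * mono i (charFun μ₁ t) (charFun μ₂ t))
        (𝓝[>] 1) (𝓝 (∑' i, (a i : ℂ) * mono i (charFun μ₁ 1) (charFun μ₂ 1))) := by
      have hco : ContinuousOn (fun p : ℂ × ℂ => ∑' i, (a i : ℂ) * mono i p.1 p.2) bidisc :=
        series_continuousOn a ha hsum
      have hcomp : Continuous (fun t : ℝ =>
          (∑' i, (a i : ℂ) * mono i (charFun μ₁ t) (charFun μ₂ t))) := by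
        apply ContinuousOn.comp_continuous hco (f := fun t : ℝ => (charFun μ₁ t, charFun μ₂ t))
          (hc1.prodMk hc2)
        intro t
        exact ⟨norm_charFun_le_one t, norm_charFun_le_one t⟩
      exact (hcomp.tendsto 1).mono_left nhdsWithin_le_nhds
    have heq : ∀ᶠ t : ℝ in 𝓝[>] 1,
        charFun ν t = ∑' i, (a i : ℂ) * mono i (charFun μ₁ t) (charFun μ₂ t) := by
      filter_upwards [hmem] with t ht
      rw [hνF t]
      exact hser _ _ (hx2 t ht.1 ht.2) (hy2 t ht.1 ht.2)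
    have hlim3 := hlim1.congr' heq
    have huniq := tendsto_nhds_unique hlim3 hlim2
    rw [hνF 1, hx1, hy1] at huniq
    exact huniq
  have hclosed' : ∀ z w : ℂ, ‖z‖ ≤ 1 → ‖w‖ ≤ 1 →
      HasSum (fun n => (a n : ℂ) * mono n z w) (G z w) := by
    intro z w hz hw
    rw [hclosed z w hz hw]
    exact (summable_series a ha hsum z w hz hw).hasSum
  refine ⟨?_, hclosed'⟩
  have hsum1 := hclosed 1 1 (by simp) (by simp)
  rw [hG.one_one] at hsum1
  have hm : ∀ i : ℕ × ℕ × ℕ × ℕ, (a i : ℂ) * mono i 1 1 = (a i : ℂ) := by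
    intro i
    simp [mono]
  simp_rw [hm] at hsum1
  rw [← Complex.ofReal_tsum] at hsum1
  have h2 : ∑' i, a i = 1 := by exact_mod_cast hsum1.symm
  rw [← h2]
  exact hsum.hasSum

end Pool.Agent.Lib.MP_23fb81_pr
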