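import Pool.Agent.Lib.MP_23fb81_pr.Defs
import Pool.Agent.Lib.MP_23fb81_pr.Boundary

set_option autoImplicit false

open MeasureTheory ComplexConjugate

namespace Pool.Agent.Lib.MP_23fb81_pr

lemma isCharFun_iff (φ : ℝ → ℂ) :
    IsCharFun φ ↔ ∃ μ : Measure ℝ, IsProbabilityMeasure μ ∧ ∀ t : ℝ, charFun μ t = φ t := by
  have key : ∀ (μ : Measure ℝ) (t : ℝ),
      charFun μ t = ∫ x, Complex.exp (Complex.I * t * x) ∂μ := by
    intro μ t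
    rw [charFun_apply_real]
    congr 1
    ext x
    congr 1
    ring
  constructor
  · rintro ⟨μ, hμ, h⟩
    exact ⟨μ, hμ, fun t => by rw [h t, key]⟩
  · rintro ⟨μ, hμ, h⟩
    exact ⟨μ, hμ, fun t => by rw [← h t, key]⟩

open scoped Classical in
/-- Extension of `F` by zero outside the closed bidisc. -/
noncomputable def ext0 (F : Disc × Disc → ℂ) (z w : ℂ) : ℂ :=
  if h : z ∈ Metric.closedBall (0:ℂ) 1 ∧ w ∈ Metric.closedBall (0:ℂ) 1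
  then F (⟨z, h.1⟩, ⟨w, h.2⟩) else 0

lemma ext0_apply (F : Disc × Disc → ℂ) (z w : Disc) : ext0 F z w = F (z, w) := by
  unfold ext0
  rw [dif_pos ⟨z.2, w.2⟩]

lemma charFun_mem_disc (μ : Measure ℝ) [IsProbabilityMeasure μ] (t : ℝ) :
    charFun μ t ∈ Metric.closedBall (0:ℂ) 1 := by
  simpa using norm_charFun_le_one (μ := μ) t

theorem admissible_iff (F : Disc × Disc → ℂ) : Admissible F ↔ Adm (ext0 F) := by
  constructor
  · intro h μ₁ μ₂ h₁ h₂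
    have := h (fun t => ⟨charFun μ₁ t, charFun_mem_disc μ₁ t⟩)
      (fun t => ⟨charFun μ₂ t, charFun_mem_disc μ₂ t⟩)
      ((isCharFun_iff _).mpr ⟨μ₁, h₁, fun _ => rfl⟩) ((isCharFun_iff _).mpr ⟨μ₂, h₂, fun _ => rfl⟩)
    obtain ⟨ν, hν, hνF⟩ := (isCharFun_iff _).mp this
    refine ⟨ν, hν, fun t => ?_⟩
    rw [hνF t]
    exact (ext0_apply F ⟨charFun μ₁ t, charFun_mem_disc μ₁ t⟩
      ⟨charFun μ₂ t, charFun_mem_disc μ₂ t⟩).symm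
  · intro h φ₁ φ₂ h₁ h₂
    obtain ⟨μ₁, hμ₁, e₁⟩ := (isCharFun_iff _).mp h₁
    obtain ⟨μ₂, hμ₂, e₂⟩ := (isCharFun_iff _).mp h₂
    obtain ⟨ν, hν, hνF⟩ := h μ₁ μ₂ hμ₁ hμ₂
    refine (isCharFun_iff _).mpr ⟨ν, hν, fun t => ?_⟩
    rw [hνF t, e₁ t, e₂ t, ext0_apply]

/-- `Adm` only depends on the values on the closed bidisc. -/
lemma Adm.congr {G H : ℂ → ℂ → ℂ} (hG : Adm G)
    (h : ∀ z w : ℂ, ‖z‖ ≤ 1 → ‖w‖ ≤ 1 → G z w = H z w) : Adm H := by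
  intro μ₁ μ₂ h₁ h₂
  obtain ⟨ν, hν, hνG⟩ := hG μ₁ μ₂ h₁ h₂
  refine ⟨ν, hν, fun t => ?_⟩
  rw [hνG t, h _ _ (norm_charFun_le_one t) (norm_charFun_le_one t)]

/-- Final assembly: once every `Adm G` has a series on the open bidisc, the characterisation
follows. -/
theorem assemble
    (hopen : ∀ G : ℂ → ℂ → ℂ, Adm G → ∃ a : ℕ × ℕ × ℕ × ℕ → ℝ, (∀ n, 0 ≤ a n) ∧ Summable a ∧
      ∀ z w : ℂ, ‖z‖ < 1 → ‖w‖ < 1 → HasSum (fun n => (a n : ℂ) * mono n z w) (G z w))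
    (F : Disc × Disc → ℂ) :
    Admissible F ↔ ∃ a : ℕ × ℕ × ℕ × ℕ → ℝ, (∀ n, 0 ≤ a n) ∧ HasSum a 1 ∧
      ∀ x y : Disc, HasSum (fun n : ℕ × ℕ × ℕ × ℕ => (a n : ℂ) * (x : ℂ) ^ n.1 *
        conj (x : ℂ) ^ n.2.1 * (y : ℂ) ^ n.2.2.1 * conj (y : ℂ) ^ n.2.2.2) (F (x, y)) := by
  have hmono : ∀ (a : ℕ × ℕ × ℕ × ℕ → ℝ) (x y : ℂ), (fun n : ℕ × ℕ × ℕ × ℕ => (a n : ℂ) * x ^ n.1 *
        conj x ^ n.2.1 * y ^ n.2.2.1 * conj y ^ n.2.2.2) = fun n => (a n : ℂ) * mono n x y := by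
    intro a x y
    ext n
    unfold mono
    ring
  rw [admissible_iff]
  constructor
  · intro h
    obtain ⟨a, ha, hs, hser⟩ := hopen _ h
    obtain ⟨h1, h2⟩ := boundary _ h a ha hs hser
    refine ⟨a, ha, h1, fun x y => ?_⟩
    rw [hmono, ← ext0_apply F x y]
    exact h2 x y (mem_closedBall_zero_iff.mp x.2) (mem_closedBall_zero_iff.mp y.2)
  · rintro ⟨a, ha, hs, hser⟩
    refine (suff a ha hs).congr ?_
    intro z w hz hw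
    have := hser ⟨z, by simpa using hz⟩ ⟨w, by simpa using hw⟩
    rw [hmono] at this
    rw [← ext0_apply F] at this
    exact this.tsum_eq

end Pool.Agent.Lib.MP_23fb81_pr
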