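import Pool.Agent.Lib.MP_23fb81_pr.Rep

set_option autoImplicit false

open MeasureTheory ComplexConjugate Filter Topology

namespace Pool.Agent.Lib.MP_23fb81_pr

/-- The natural number congruent to `j` mod `m` and to `e` mod `2`, for odd `m`. -/
def crt (m j e : ℕ) : ℕ := if j % 2 = e then j else j + m

lemma rt_crt (m : ℕ) (hm : 0 < m) (j e : ℕ) : rt m (crt m j e : ℕ) = rt m j := by
  unfold crt
  split_ifs with h
  · rfl
  · push_cast
    rw [rt_add]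
    have : rt m m = 1 := by
      unfold rt
      have hmc : (m : ℂ) ≠ 0 := by exact_mod_cast hm.ne'
      have : (2 * Real.pi * Complex.I * (m:ℤ) / m : ℂ) = 2 * Real.pi * Complex.I := by
        push_cast
        field_simp
      rw [this, Complex.exp_two_pi_mul_I]
    rw [this, mul_one]

lemma crt_mod (m : ℕ) (hm : m % 2 = 1) (j e : ℕ) (he : e < 2) : crt m j e % 2 = e := by
  unfold crt
  split_ifs with h
  · exact h
  · omega

lemma exp_pi_nat (T : ℕ) : Complex.exp (Real.pi * T * Complex.I) = (-1) ^ T := by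
  have : (Real.pi * T * Complex.I : ℂ) = T * (Real.pi * Complex.I) := by ring
  rw [this, Complex.exp_nat_mul, Complex.exp_pi_mul_I]

/-- Joint realisation of three values. -/
lemma exists_pair (m : ℕ) (hm : m % 2 = 1) (η : ℝ) (h0 : 0 ≤ η) (h1 : η ≤ 1) (v₀ v₁ : ℂ)
    (p₀ p₁ : ℕ → ℝ) (hp₀ : ∀ j, 0 ≤ p₀ j) (hp₁ : ∀ j, 0 ≤ p₁ j)
    (hs₀ : ∑ j ∈ Finset.range m, p₀ j = 1) (hs₁ : ∑ j ∈ Finset.range m, p₁ j = 1)
    (hv₀ : ∑ j ∈ Finset.range m, (p₀ j : ℂ) * rt m j = v₀)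
    (hv₁ : ∑ j ∈ Finset.range m, (p₁ j : ℂ) * rt m j = v₁) :
    ∃ μ : Measure ℝ, IsProbabilityMeasure μ ∧
      charFun μ (2 * Real.pi / m) = (1 - η / 2) * v₀ + (η / 2) * v₁ ∧
      charFun μ (2 * Real.pi / m + Real.pi) = (1 - η / 2) * v₀ - (η / 2) * v₁ ∧
      charFun μ Real.pi = ((1 - η : ℝ) : ℂ) := by
  have hm0 : 0 < m := by omega
  have hmc : (m : ℂ) ≠ 0 := by exact_mod_cast hm0.ne'
  let w : Fin m × Fin 2 → ℝ := fun i => if i.2 = 0 then (1 - η / 2) * p₀ i.1 else (η / 2) * p₁ i.1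
  let τ : Fin m × Fin 2 → ℝ := fun i => ((crt m i.1 i.2 : ℕ) : ℝ)
  have hw : ∀ i, 0 ≤ w i := by
    intro i
    show 0 ≤ (if i.2 = 0 then (1 - η / 2) * p₀ i.1 else (η / 2) * p₁ i.1)
    split_ifs
    · exact mul_nonneg (by linarith) (hp₀ _)
    · exact mul_nonneg (by linarith) (hp₁ _)
  have hsum : ∑ i, w i = 1 := by
    rw [Fintype.sum_prod_type]
    simp only [Fin.sum_univ_two, w]
    simp only [if_true, Fin.isValue, one_ne_zero, if_false]
    rw [Finset.sum_add_distrib, ← Finset.mul_sum, ← Finset.mul_sum]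
    rw [Fin.sum_univ_eq_sum_range (fun j => p₀ j), Fin.sum_univ_eq_sum_range (fun j => p₁ j), hs₀, hs₁]
    ring
  have hgen : ∀ (t : ℝ) (c₀ c₁ : ℂ) (f : ℕ → ℂ),
      (∀ j : ℕ, Complex.exp (t * (crt m j 0 : ℕ) * Complex.I) = c₀ * f j) →
      (∀ j : ℕ, Complex.exp (t * (crt m j 1 : ℕ) * Complex.I) = c₁ * f j) →
      charFun (mix w τ) t = (1 - η / 2) * c₀ * (∑ j ∈ Finset.range m, (p₀ j : ℂ) * f j) +
        (η / 2) * c₁ * (∑ j ∈ Finset.range m, (p₁ j : ℂ) * f j) := by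
    intro t c₀ c₁ f hf0 hf1
    rw [charFun_mix w τ hw, Fintype.sum_prod_type]
    simp only [Fin.sum_univ_two, w, τ]
    simp only [if_true, Fin.isValue, one_ne_zero, if_false, Fin.val_zero, Fin.val_one]
    rw [Finset.sum_add_distrib]
    congr 1
    · rw [Finset.mul_sum, ← Fin.sum_univ_eq_sum_range
        (fun j => (1 - (η:ℂ) / 2) * c₀ * ((p₀ j : ℂ) * f j))]
      apply Finset.sum_congr rfl
      intro j _
      rw [Complex.ofReal_natCast, hf0]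
      push_cast
      ring
    · rw [Finset.mul_sum, ← Fin.sum_univ_eq_sum_range
        (fun j => ((η:ℂ) / 2) * c₁ * ((p₁ j : ℂ) * f j))]
      apply Finset.sum_congr rfl
      intro j _
      rw [Complex.ofReal_natCast, hf1]
      push_cast
      ring
  have hrt : ∀ (j e : ℕ), Complex.exp (((2 * Real.pi / m : ℝ) : ℂ) * (crt m j e : ℕ) * Complex.I)
      = rt m j := by
    intro j e
    rw [← rt_crt m hm0 j e]
    unfold rt
    congr 1
    push_cast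
    ring
  have hpi0 : ∀ j : ℕ, Complex.exp ((Real.pi : ℂ) * (crt m j 0 : ℕ) * Complex.I) = 1 := by
    intro j
    rw [exp_pi_nat]
    exact Even.neg_one_pow (Nat.even_iff.mpr (crt_mod m hm j 0 (by norm_num)))
  have hpi1 : ∀ j : ℕ, Complex.exp ((Real.pi : ℂ) * (crt m j 1 : ℕ) * Complex.I) = -1 := by
    intro j
    rw [exp_pi_nat]
    exact Odd.neg_one_pow (Nat.odd_iff.mpr (crt_mod m hm j 1 (by norm_num)))
  have hadd : ∀ (j e : ℕ),
      Complex.exp (((2 * Real.pi / m + Real.pi : ℝ) : ℂ) * (crt m j e : ℕ) * Complex.I)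
      = Complex.exp (((2 * Real.pi / m : ℝ) : ℂ) * (crt m j e : ℕ) * Complex.I) *
        Complex.exp ((Real.pi : ℂ) * (crt m j e : ℕ) * Complex.I) := by
    intro j e
    rw [← Complex.exp_add]
    congr 1
    push_cast
    ring
  refine ⟨mix w τ, mix_prob w τ hw hsum, ?_, ?_, ?_⟩
  · rw [hgen (2 * Real.pi / m) 1 1 (fun j => rt m j) (fun j => by rw [hrt, one_mul])
      (fun j => by rw [hrt, one_mul]), hv₀, hv₁]
    ring
  · rw [hgen (2 * Real.pi / m + Real.pi) 1 (-1) (fun j => rt m j)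
      (fun j => by rw [hadd, hrt, hpi0]; ring) (fun j => by rw [hadd, hrt, hpi1]; ring), hv₀, hv₁]
    ring
  · rw [hgen Real.pi 1 (-1) (fun _ => 1) (fun j => by rw [hpi0]; ring)
      (fun j => by rw [hpi1]; ring)]
    have e0 : ∑ j ∈ Finset.range m, (p₀ j : ℂ) * 1 = 1 := by
      simp only [mul_one]
      exact_mod_cast hs₀
    have e1 : ∑ j ∈ Finset.range m, (p₁ j : ℂ) * 1 = 1 := by
      simp only [mul_one]
      exact_mod_cast hs₁
    rw [e0, e1]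
    push_cast
    ring

lemma exists_m (a b c d : ℕ) : ∃ m : ℕ, m % 2 = 1 ∧ a ≤ m ∧ b ≤ m ∧ c ≤ m ∧ d ≤ m :=
  ⟨2 * (a + b + c + d) + 1, by omega, by omega, by omega, by omega, by omega⟩

/-- Key estimate: the modulus of continuity of an admissible function on the open bidisc. -/
theorem Adm.sub_sq_le {G : ℂ → ℂ → ℂ} (hG : Adm G) {η : ℝ} (h0 : 0 < η) (h1 : η < 1)
    {z w a b : ℂ} (hz : ‖z‖ + η < 1) (hw : ‖w‖ + η < 1) (ha : ‖a - z‖ < η) (hb : ‖b - w‖ < η) :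
    ‖G a b - G z w‖ ^ 2 ≤ 2 * (1 - (G ((1 - η : ℝ) : ℂ) ((1 - η : ℝ) : ℂ)).re) := by
  have hηc : (η : ℂ) ≠ 0 := by exact_mod_cast h0.ne'
  have h2η : (2 - η : ℂ) ≠ 0 := by
    have : ((2 - η : ℝ) : ℂ) ≠ 0 := by exact_mod_cast (by linarith : (2:ℝ) - η ≠ 0)
    simpa using this
  have hmean : ∀ (x y : ℂ), ‖x‖ + η < 1 → ‖y - x‖ < η →
      ‖(x + y) / (2 - η)‖ < 1 ∧ ‖(x - y) / η‖ < 1 := by
    intro x y hx hy
    constructor
    · rw [norm_div, div_lt_one (norm_pos_iff.mpr h2η)]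
      have hn : ‖(2 - η : ℂ)‖ = 2 - η := by
        have : (2 - η : ℂ) = ((2 - η : ℝ) : ℂ) := by push_cast; ring
        rw [this, Complex.norm_real, Real.norm_of_nonneg (by linarith)]
      rw [hn]
      calc ‖x + y‖ = ‖2 * x + (y - x)‖ := by congr 1; ring
        _ ≤ ‖2 * x‖ + ‖y - x‖ := norm_add_le _ _
        _ = 2 * ‖x‖ + ‖y - x‖ := by rw [norm_mul]; simp
        _ < 2 * (1 - η) + η := by linarith
        _ ≤ 2 - η := by linarith
    · rw [norm_div, div_lt_one (norm_pos_iff.mpr hηc), norm_sub_rev]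
      rw [Complex.norm_real, Real.norm_of_nonneg h0.le]
      exact hy
  obtain ⟨hz0, hz1⟩ := hmean z a hz ha
  obtain ⟨hw0, hw1⟩ := hmean w b hw hb
  obtain ⟨m1, H1⟩ := exists_weights _ hz0
  obtain ⟨m2, H2⟩ := exists_weights _ hz1
  obtain ⟨m3, H3⟩ := exists_weights _ hw0
  obtain ⟨m4, H4⟩ := exists_weights _ hw1
  obtain ⟨m, hm, g1, g2, g3, g4⟩ := exists_m m1 m2 m3 m4
  obtain ⟨p1, hp1, hs1, hv1⟩ := H1 m g1
  obtain ⟨p2, hp2, hs2, hv2⟩ := H2 m g2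
  obtain ⟨p3, hp3, hs3, hv3⟩ := H3 m g3
  obtain ⟨p4, hp4, hs4, hv4⟩ := H4 m g4
  obtain ⟨μ₁, hμ₁, e1, e2, e3⟩ := exists_pair m hm η h0.le h1.le _ _ p1 p2 hp1 hp2 hs1 hs2 hv1 hv2
  obtain ⟨μ₂, hμ₂, f1, f2, f3⟩ := exists_pair m hm η h0.le h1.le _ _ p3 p4 hp3 hp4 hs3 hs4 hv3 hv4
  have hval : ∀ x y : ℂ, (1 - (η:ℂ) / 2) * ((x + y) / (2 - η)) + ((η:ℂ) / 2) * ((x - y) / η) = x ∧
      (1 - (η:ℂ) / 2) * ((x + y) / (2 - η)) - ((η:ℂ) / 2) * ((x - y) / η) = y := by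
    intro x y
    constructor
    · field_simp
      ring
    · field_simp
      ring
  rw [(hval z a).1] at e1
  rw [(hval z a).2] at e2
  rw [(hval w b).1] at f1
  rw [(hval w b).2] at f2
  obtain ⟨ν, hν, hνG⟩ := hG μ₁ μ₂ hμ₁ hμ₂
  have hk := krein ν (2 * Real.pi / m + Real.pi) (2 * Real.pi / m)
  have hsub : (2 * Real.pi / m + Real.pi) - (2 * Real.pi / m) = Real.pi := by ring
  rw [hsub, hνG, hνG, hνG, e1, e2, e3, f1, f2, f3] at hk
  exact hk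

/-- Continuity of admissible functions on the open bidisc. -/
theorem Adm.continuity {G : ℂ → ℂ → ℂ} (hG : Adm G) {z w : ℂ} (hz : ‖z‖ < 1) (hw : ‖w‖ < 1)
    {ε : ℝ} (hε : 0 < ε) :
    ∃ δ > 0, ∀ a b : ℂ, ‖a - z‖ < δ → ‖b - w‖ < δ → ‖G a b - G z w‖ ≤ ε := by
  obtain ⟨η, h0, hc, h1, hη⟩ := hG.exists_eta (ε ^ 2) (by positivity)
    (min (1 - ‖z‖) (1 - ‖w‖)) (lt_min (by linarith) (by linarith))
  refine ⟨η, h0, fun a b ha hb => ?_⟩
  have hcz : η < 1 - ‖z‖ := lt_of_lt_of_le hc (min_le_left _ _)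
  have hcw : η < 1 - ‖w‖ := lt_of_lt_of_le hc (min_le_right _ _)
  have h := hG.sub_sq_le h0 h1 (by linarith) (by linarith) ha hb
  have h2 : ‖G a b - G z w‖ ^ 2 ≤ ε ^ 2 := h.trans hη.le
  exact le_of_sq_le_sq h2 hε.le

end Pool.Agent.Lib.MP_23fb81_pr
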