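import Mathlib

/-! Definitions for functions of two variables acting on characteristic functions. -/

namespace Pool.Agent.Lib.MP_23fb81_pr

open MeasureTheory

/-- `φ : ℝ → ℂ` is the characteristic function of some Borel probability measure `μ` on `ℝ`,
`φ ξ = ∫ exp (i ξ t) dμ(t)`. -/
def IsCharFun (φ : ℝ → ℂ) : Prop :=
  ∃ μ : Measure ℝ, IsProbabilityMeasure μ ∧ ∀ ξ : ℝ, φ ξ = ∫ t, Complex.exp (Complex.I * ξ * t) ∂μ

/-- The closed unit disc. -/
abbrev Disc : Type := Metric.closedBall (0 : ℂ) 1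

/-- `F` is admissible: `ξ ↦ F (φ₁ ξ, φ₂ ξ)` is a characteristic function for all characteristic
functions `φ₁, φ₂` (which take values in the closed unit disc). -/
def Admissible (F : Disc × Disc → ℂ) : Prop :=
  ∀ φ₁ φ₂ : ℝ → Disc, IsCharFun (fun ξ => (φ₁ ξ : ℂ)) → IsCharFun (fun ξ => (φ₂ ξ : ℂ)) →
    IsCharFun (fun ξ => F (φ₁ ξ, φ₂ ξ))

end Pool.Agent.Lib.MP_23fb81_pr
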