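import Mathlib

/-! The truncated Poisson kernel on `ZMod q`. -/

namespace Pool.Agent.Lib.MP_23fb81_pr

open Finset Complex
open scoped ComplexConjugate

/-- index type of the terms of the kernel -/
abbrev KIdx (K : ℕ) : Type := Option (Fin K × Bool)

/-- the coefficient monomial of a term -/
def kmon {K : ℕ} (z : ℂ) : KIdx K → ℂ
  | none => 1
  | some (k, true) => z ^ ((k : ℕ) + 1)
  | some (k, false) => conj z ^ ((k : ℕ) + 1)

/-- the frequency of a term -/
def kfreq {K : ℕ} : KIdx K → ℤ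
  | none => 0
  | some (k, true) => -((k : ℤ) + 1)
  | some (k, false) => (k : ℤ) + 1

/-- the kernel (as a weight on `ZMod q`) -/
noncomputable def kw (q : ℕ) [NeZero q] (K : ℕ) (z : ℂ) (x : ZMod q) : ℂ :=
  (1 / (q : ℂ)) * ∑ c : KIdx K, kmon z c * ZMod.stdAddChar ((kfreq c : ZMod q) * x)

theorem sum_stdAddChar (q : ℕ) [NeZero q] (n : ℤ) :
    ∑ x : ZMod q, ZMod.stdAddChar ((n : ZMod q) * x) = if (n : ZMod q) = 0 then (q : ℂ) else 0 := by
  have h := AddChar.sum_mulShift (R := ZMod q) (n : ZMod q) (ZMod.isPrimitive_stdAddChar q)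
  simp only [mul_comm _ (n : ZMod q), ZMod.card] at h
  rw [h]
  split_ifs <;> simp

theorem norm_stdAddChar (q : ℕ) [NeZero q] (x : ZMod q) : ‖ZMod.stdAddChar x‖ = 1 := by
  rw [ZMod.stdAddChar_apply]; exact Circle.norm_coe _

theorem stdAddChar_neg (q : ℕ) [NeZero q] (x : ZMod q) :
    ZMod.stdAddChar (-x) = conj (ZMod.stdAddChar x) := by
  rw [AddChar.map_neg_eq_inv, Complex.inv_def, Complex.normSq_eq_norm_sq, norm_stdAddChar]
  simp

theorem stdAddChar_nat_mul (q : ℕ) [NeZero q] (k : ℕ) (x : ZMod q) :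
    ZMod.stdAddChar ((k : ZMod q) * x) = ZMod.stdAddChar x ^ k := by
  rw [← nsmul_eq_mul, AddChar.map_nsmul_eq_pow]

theorem kw_eq (q : ℕ) [NeZero q] (K : ℕ) (z : ℂ) (x : ZMod q) :
    kw q K z x = (((1 / (q : ℝ)) *
      (1 + 2 * (∑ k ∈ range K, (z * conj (ZMod.stdAddChar x)) ^ (k + 1)).re) : ℝ) : ℂ) := by
  have h1 : ∀ k : ℕ, ZMod.stdAddChar (((-((k : ℤ) + 1) : ℤ) : ZMod q) * x)
      = conj (ZMod.stdAddChar x) ^ (k + 1) := by
    intro k
    have : ((-((k : ℤ) + 1) : ℤ) : ZMod q) * x = ((k + 1 : ℕ) : ZMod q) * (-x) := by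
      push_cast; ring
    rw [this, stdAddChar_nat_mul, stdAddChar_neg]
  have h2 : ∀ k : ℕ, ZMod.stdAddChar ((((k : ℤ) + 1 : ℤ) : ZMod q) * x)
      = (ZMod.stdAddChar x) ^ (k + 1) := by
    intro k
    have : (((k : ℤ) + 1 : ℤ) : ZMod q) * x = ((k + 1 : ℕ) : ZMod q) * x := by
      push_cast; ring
    rw [this, stdAddChar_nat_mul]
  unfold kw
  rw [Fintype.sum_option, Fintype.sum_prod_type]
  simp only [Fintype.sum_bool, kmon, kfreq, h1, h2]
  simp only [Int.cast_zero, zero_mul, AddChar.map_zero_eq_one, mul_one]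
  have h3 : ∀ k : ℕ, z ^ (k + 1) * conj (ZMod.stdAddChar x) ^ (k + 1)
      + conj z ^ (k + 1) * ZMod.stdAddChar x ^ (k + 1)
      = ((2 * ((z * conj (ZMod.stdAddChar x)) ^ (k + 1)).re : ℝ) : ℂ) := by
    intro k
    have := Complex.add_conj ((z * conj (ZMod.stdAddChar x)) ^ (k + 1))
    rw [← this, map_pow, map_mul, Complex.conj_conj, mul_pow, mul_pow]
  simp only [h3]
  rw [Fin.sum_univ_eq_sum_range
    (fun k => ((2 * ((z * conj (ZMod.stdAddChar x)) ^ (k + 1)).re : ℝ) : ℂ)) K]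
  push_cast
  rw [Complex.re_sum]
  push_cast
  rw [Finset.mul_sum]

/-- lower bound for the real Poisson kernel -/
theorem poisson_lower {ρ : ℝ} (hρ0 : 0 ≤ ρ) (hρ : ρ < 1) {y : ℂ} (hy : ‖y‖ ≤ ρ) :
    (1 - ρ ^ 2) / 4 ≤ 1 + 2 * (y / (1 - y)).re := by
  have hy1 : ‖y‖ < 1 := lt_of_le_of_lt hy hρ
  have hne : (1 - y) ≠ 0 := by
    intro h
    have : y = 1 := by linear_combination -h
    rw [this, norm_one] at hy1
    exact lt_irrefl _ hy1
  have h1 : 1 + 2 * (y / (1 - y)).re = (1 - normSq y) / normSq (1 - y) := by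
    have hpos : normSq (1 - y) ≠ 0 := by simpa [Complex.normSq_eq_zero] using hne
    rw [Complex.div_re]
    rw [eq_div_iff hpos]
    field_simp
    simp only [Complex.normSq_apply, Complex.sub_re, Complex.one_re, Complex.sub_im, Complex.one_im]
    ring
  rw [h1]
  have h2 : normSq (1 - y) ≤ 4 := by
    rw [Complex.normSq_eq_norm_sq]
    have : ‖1 - y‖ ≤ 2 := by
      calc ‖1 - y‖ ≤ ‖(1 : ℂ)‖ + ‖y‖ := norm_sub_le _ _
        _ ≤ 2 := by rw [norm_one]; linarith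
    nlinarith [norm_nonneg (1 - y)]
  have h3 : 0 < normSq (1 - y) := Complex.normSq_pos.mpr hne
  have h4 : normSq y ≤ ρ ^ 2 := by
    rw [Complex.normSq_eq_norm_sq]
    exact pow_le_pow_left₀ (norm_nonneg _) hy 2
  rw [div_le_div_iff₀ (by norm_num) h3]
  have h5 : 0 ≤ 1 - ρ ^ 2 := by nlinarith
  nlinarith [normSq_nonneg y]

theorem trunc_poisson_nonneg {ρ : ℝ} (hρ0 : 0 ≤ ρ) (hρ : ρ < 1) {K : ℕ}
    (hK : 2 * ρ ^ (K + 1) / (1 - ρ) ≤ (1 - ρ ^ 2) / 4) {y : ℂ} (hy : ‖y‖ ≤ ρ) :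
    0 ≤ 1 + 2 * (∑ k ∈ range K, y ^ (k + 1)).re := by
  have hy1 : ‖y‖ < 1 := lt_of_le_of_lt hy hρ
  have hne : (1 - y) ≠ 0 := by
    intro h
    have : y = 1 := by linear_combination -h
    rw [this, norm_one] at hy1
    exact lt_irrefl _ hy1
  have h1 : ∑ k ∈ range K, y ^ (k + 1) = y / (1 - y) - y ^ (K + 1) / (1 - y) := by
    have h2 : ∑ k ∈ range K, y ^ (k + 1) = y * ∑ k ∈ range K, y ^ k := by
      rw [Finset.mul_sum]
      exact Finset.sum_congr rfl fun k _ => by ring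
    have h3 := mul_neg_geom_sum y K
    rw [h2, ← sub_div, eq_div_iff hne]
    linear_combination y * h3
  rw [h1, Complex.sub_re]
  have h4 : |(y ^ (K + 1) / (1 - y)).re| ≤ ρ ^ (K + 1) / (1 - ρ) := by
    refine (Complex.abs_re_le_norm _).trans ?_
    rw [norm_div, norm_pow]
    have h5 : 1 - ρ ≤ ‖1 - y‖ := by
      have := norm_sub_norm_le (1 : ℂ) y
      rw [norm_one] at this
      linarith
    have h6 : 0 < 1 - ρ := by linarith
    gcongr
  have h7 := poisson_lower hρ0 hρ hy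
  have h8 := (abs_le.mp h4).2
  have h9 : 2 * (ρ ^ (K + 1) / (1 - ρ)) = 2 * ρ ^ (K + 1) / (1 - ρ) := by ring
  linarith

theorem eventually_trunc {ρ : ℝ} (hρ0 : 0 ≤ ρ) (hρ : ρ < 1) :
    ∀ᶠ K : ℕ in Filter.atTop, 2 * ρ ^ (K + 1) / (1 - ρ) ≤ (1 - ρ ^ 2) / 4 := by
  have h1 : Filter.Tendsto (fun K : ℕ => 2 * ρ ^ (K + 1) / (1 - ρ)) Filter.atTop
      (nhds (2 * 0 / (1 - ρ))) := by
    refine Filter.Tendsto.div_const (Filter.Tendsto.const_mul _ ?_) _
    exact (tendsto_pow_atTop_nhds_zero_of_lt_one hρ0 hρ).comp (Filter.tendsto_add_atTop_nat 1)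
  have h2 : 2 * 0 / (1 - ρ) < (1 - ρ ^ 2) / 4 := by
    simp only [mul_zero, zero_div]
    nlinarith
  exact (h1.eventually (gt_mem_nhds h2)).mono fun K hK => le_of_lt hK

/-- the kernel is a nonnegative weight -/
theorem kw_nonneg {ρ : ℝ} (hρ0 : 0 ≤ ρ) (hρ : ρ < 1) {K : ℕ}
    (hK : 2 * ρ ^ (K + 1) / (1 - ρ) ≤ (1 - ρ ^ 2) / 4) (q : ℕ) [NeZero q] {z : ℂ}
    (hz : ‖z‖ ≤ ρ) (x : ZMod q) : ∃ r : ℝ, 0 ≤ r ∧ kw q K z x = r := by
  refine ⟨_, ?_, kw_eq q K z x⟩
  apply mul_nonneg (by positivity)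
  apply trunc_poisson_nonneg hρ0 hρ hK
  rw [norm_mul, RCLike.norm_conj, norm_stdAddChar, mul_one]
  exact hz

theorem sum_kw_mul (q : ℕ) [NeZero q] (K : ℕ) (z : ℂ) (l : ℤ) :
    ∑ x : ZMod q, kw q K z x * ZMod.stdAddChar ((l : ZMod q) * x)
      = ∑ c : KIdx K, kmon z c * (if ((kfreq c + l : ℤ) : ZMod q) = 0 then 1 else 0) := by
  unfold kw
  simp only [mul_assoc, Finset.sum_mul, ← AddChar.map_add_eq_mul, ← add_mul]
  rw [← Finset.mul_sum, Finset.sum_comm]
  have h1 : ∀ c : KIdx K, ∑ x : ZMod q, kmon z c * ZMod.stdAddChar (((kfreq c : ZMod q)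
      + (l : ZMod q)) * x) = kmon z c * (if ((kfreq c + l : ℤ) : ZMod q) = 0 then (q : ℂ) else 0) := by
    intro c
    rw [← Finset.mul_sum]
    have := sum_stdAddChar q (kfreq c + l)
    push_cast at this ⊢
    rw [this]
  simp only [h1]
  rw [Finset.mul_sum]
  refine Finset.sum_congr rfl fun c _ => ?_
  have hq : (q : ℂ) ≠ 0 := Nat.cast_ne_zero.mpr (NeZero.ne q)
  split_ifs
  · field_simp
  · simp

theorem kfreq_abs_le {K : ℕ} (c : KIdx K) : |kfreq c| ≤ K := by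
  rcases c with _ | ⟨k, b⟩
  · simp [kfreq]
  · have hk : (k : ℤ) + 1 ≤ K := by exact_mod_cast k.2
    cases b
    · simp only [kfreq]; rw [abs_of_nonneg (by positivity)]; exact hk
    · simp only [kfreq]; rw [abs_neg, abs_of_nonneg (by positivity)]; exact hk

theorem cast_eq_zero_iff {q : ℕ} {n : ℤ} (h : |n| < q) : ((n : ℤ) : ZMod q) = 0 ↔ n = 0 := by
  rw [ZMod.intCast_zmod_eq_zero_iff_dvd]
  constructor
  · intro hd
    exact Int.eq_zero_of_abs_lt_dvd hd h
  · rintro rfl; exact dvd_zero _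

theorem sum_kw_mul' (q : ℕ) [NeZero q] (K : ℕ) (hq : K + 1 < q) (z : ℂ) (l : ℤ) (hl : |l| ≤ 1) :
    ∑ x : ZMod q, kw q K z x * ZMod.stdAddChar ((l : ZMod q) * x)
      = ∑ c : KIdx K, (if kfreq c = -l then kmon z c else 0) := by
  rw [sum_kw_mul]
  refine Finset.sum_congr rfl fun c _ => ?_
  have h1 : |kfreq c + l| < q := by
    have h2 := kfreq_abs_le c
    have h3 : |kfreq c + l| ≤ |kfreq c| + |l| := abs_add_le _ _
    have h4 : (K : ℤ) + 1 < q := by exact_mod_cast hq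
    linarith
  have h5 : ((kfreq c + l : ℤ) : ZMod q) = 0 ↔ kfreq c = -l := by
    rw [cast_eq_zero_iff h1]; constructor <;> intro h <;> linarith
  simp only [h5, mul_ite, mul_one, mul_zero]

theorem kfreq_injective {K : ℕ} : Function.Injective (kfreq (K := K)) := by
  intro c d h
  rcases c with _ | ⟨k, b⟩ <;> rcases d with _ | ⟨k', b'⟩
  · rfl
  · cases b' <;> simp only [kfreq] at h <;> omega
  · cases b <;> simp only [kfreq] at h <;> omega
  · cases b <;> cases b' <;> simp only [kfreq] at h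
    · have : k = k' := Fin.ext (by omega)
      rw [this]
    · omega
    · omega
    · have : k = k' := Fin.ext (by omega)
      rw [this]

theorem sum_kfreq_eq {K : ℕ} (z : ℂ) (c0 : KIdx K) (l : ℤ) (h : kfreq c0 = l) :
    ∑ c : KIdx K, (if kfreq c = l then kmon z c else 0) = kmon z c0 := by
  rw [Finset.sum_eq_single c0]
  · rw [if_pos h]
  · intro c _ hc
    rw [if_neg]
    intro h'
    exact hc (kfreq_injective (h'.trans h.symm))
  · intro h; exact absurd (Finset.mem_univ _) h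

theorem sum_kw_zero (q : ℕ) [NeZero q] (K : ℕ) (hq : K + 1 < q) (z : ℂ) :
    ∑ x : ZMod q, kw q K z x = 1 := by
  have h := sum_kw_mul' q K hq z 0 (by norm_num)
  simp only [Int.cast_zero, zero_mul, AddChar.map_zero_eq_one, mul_one, neg_zero] at h
  rw [h, sum_kfreq_eq z none 0 rfl]
  rfl

theorem sum_kw_one (q : ℕ) [NeZero q] (K : ℕ) (hK : 1 ≤ K) (hq : K + 1 < q) (z : ℂ) :
    ∑ x : ZMod q, kw q K z x * ZMod.stdAddChar x = z := by
  have h := sum_kw_mul' q K hq z 1 (by norm_num)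
  simp only [Int.cast_one, one_mul] at h
  rw [h, sum_kfreq_eq z (some ((⟨0, hK⟩ : Fin K), true)) (-1) (by simp [kfreq])]
  simp [kmon]

theorem sum_kw_neg_one (q : ℕ) [NeZero q] (K : ℕ) (hK : 1 ≤ K) (hq : K + 1 < q) (z : ℂ) :
    ∑ x : ZMod q, kw q K z x * conj (ZMod.stdAddChar x) = conj z := by
  have h := sum_kw_mul' q K hq z (-1) (by norm_num)
  have e : ∀ x : ZMod q, ZMod.stdAddChar (((-1 : ℤ) : ZMod q) * x) = conj (ZMod.stdAddChar x) := by
    intro x
    rw [← stdAddChar_neg]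
    congr 1
    push_cast
    ring
  simp only [e] at h
  rw [h, sum_kfreq_eq z (some ((⟨0, hK⟩ : Fin K), false)) (- -1) (by simp [kfreq])]
  simp [kmon]

/-- the variance of one coordinate -/
theorem sum_kw_var (q : ℕ) [NeZero q] (K : ℕ) (hK : 1 ≤ K) (hq : K + 1 < q) (z : ℂ) :
    ∑ x : ZMod q, kw q K z x * ((ZMod.stdAddChar x - z) * conj (ZMod.stdAddChar x - z))
      = 1 - z * conj z := by
  have e : ∀ x : ZMod q, kw q K z x * ((ZMod.stdAddChar x - z) * conj (ZMod.stdAddChar x - z))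
      = kw q K z x * (1 + z * conj z) - conj z * (kw q K z x * ZMod.stdAddChar x)
        - z * (kw q K z x * conj (ZMod.stdAddChar x)) := by
    intro x
    have h1 : ZMod.stdAddChar x * conj (ZMod.stdAddChar x) = 1 := by
      rw [Complex.mul_conj, Complex.normSq_eq_norm_sq, norm_stdAddChar]; norm_num
    rw [map_sub]
    linear_combination (kw q K z x) * h1
  simp only [e]
  rw [Finset.sum_sub_distrib, Finset.sum_sub_distrib, ← Finset.sum_mul, ← Finset.mul_sum,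
    ← Finset.mul_sum, sum_kw_zero q K hq, sum_kw_one q K hK hq, sum_kw_neg_one q K hK hq]
  ring

end Pool.Agent.Lib.MP_23fb81_pr
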