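import Pool.Agent.Lib.MP_23fb81_pr.Basic

set_option autoImplicit false

open MeasureTheory ComplexConjugate

namespace Pool.Agent.Lib.MP_23fb81_pr

lemma norm_mono_le (i : ℕ × ℕ × ℕ × ℕ) (x y : ℂ) (hx : ‖x‖ ≤ 1) (hy : ‖y‖ ≤ 1) :
    ‖mono i x y‖ ≤ 1 := by
  unfold mono
  rw [norm_mul, norm_mul, norm_mul, norm_pow, norm_pow, norm_pow, norm_pow]
  rw [RCLike.norm_conj, RCLike.norm_conj]
  have h1 : ‖x‖ ^ i.1 ≤ 1 := pow_le_one₀ (norm_nonneg _) hx
  have h2 : ‖x‖ ^ i.2.1 ≤ 1 := pow_le_one₀ (norm_nonneg _) hx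
  have h3 : ‖y‖ ^ i.2.2.1 ≤ 1 := pow_le_one₀ (norm_nonneg _) hy
  have h4 : ‖y‖ ^ i.2.2.2 ≤ 1 := pow_le_one₀ (norm_nonneg _) hy
  have h12 : ‖x‖ ^ i.1 * ‖x‖ ^ i.2.1 ≤ 1 := mul_le_one₀ h1 (by positivity) h2
  have h123 : ‖x‖ ^ i.1 * ‖x‖ ^ i.2.1 * ‖y‖ ^ i.2.2.1 ≤ 1 := mul_le_one₀ h12 (by positivity) h3
  exact mul_le_one₀ h123 (by positivity) h4

/-- Being the characteristic function of a probability measure on the line. -/
def IsCF (φ : ℝ → ℂ) : Prop :=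
  ∃ ν : Measure ℝ, IsProbabilityMeasure ν ∧ ∀ t : ℝ, charFun ν t = φ t

lemma isCF_charFun (μ : Measure ℝ) [IsProbabilityMeasure μ] : IsCF (charFun μ) :=
  ⟨μ, inferInstance, fun _ => rfl⟩

lemma isCF_one : IsCF (fun _ => 1) := by
  refine ⟨Measure.dirac 0, inferInstance, fun t => ?_⟩
  rw [charFun_dirac]
  simp

lemma IsCF.mul {φ ψ : ℝ → ℂ} (h1 : IsCF φ) (h2 : IsCF ψ) : IsCF (fun t => φ t * ψ t) := by
  obtain ⟨μ, hμ, hφ⟩ := h1
  obtain ⟨ν, hν, hψ⟩ := h2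
  refine ⟨μ.conv ν, inferInstance, fun t => ?_⟩
  rw [charFun_conv, hφ, hψ]

lemma IsCF.conj {φ : ℝ → ℂ} (h : IsCF φ) : IsCF (fun t => conj (φ t)) := by
  obtain ⟨μ, hμ, hφ⟩ := h
  refine ⟨μ.map (fun x => (-1:ℝ) * x), Measure.isProbabilityMeasure_map (by fun_prop), fun t => ?_⟩
  rw [charFun_map_mul, neg_one_mul, charFun_neg, hφ]

lemma IsCF.pow {φ : ℝ → ℂ} (h : IsCF φ) (n : ℕ) : IsCF (fun t => φ t ^ n) := by
  induction n with
  | zero => simpa using isCF_one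
  | succ n ih =>
    simp only [pow_succ]
    exact ih.mul h

lemma IsCF.mono {φ ψ : ℝ → ℂ} (h1 : IsCF φ) (h2 : IsCF ψ) (i : ℕ × ℕ × ℕ × ℕ) :
    IsCF (fun t => mono i (φ t) (ψ t)) := by
  unfold Pool.Agent.Lib.MP_23fb81_pr.mono
  exact (((h1.pow _).mul (h1.conj.pow _)).mul (h2.pow _)).mul (h2.conj.pow _)

lemma charFun_integrable (μ : Measure ℝ) [IsFiniteMeasure μ] (t : ℝ) :
    Integrable (fun x : ℝ => Complex.exp (t * x * Complex.I)) μ := by
  apply Integrable.of_bound (C := 1)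
  · fun_prop
  · filter_upwards with x
    have : (t * x * Complex.I : ℂ) = ((t * x : ℝ) : ℂ) * Complex.I := by push_cast; ring
    rw [this, Complex.norm_exp_ofReal_mul_I]

/-- Countable mixtures of characteristic functions are characteristic functions. -/
lemma isCF_tsum {ι : Type*} [Countable ι] (a : ι → ℝ) (ha : ∀ i, 0 ≤ a i) (hs : HasSum a 1)
    (φ : ι → ℝ → ℂ) (hφ : ∀ i, IsCF (φ i)) :
    IsCF (fun t => ∑' i, (a i : ℂ) * φ i t) := by
  choose κ hκ hκφ using hφ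
  let ρ : Measure ℝ := Measure.sum (fun i => ENNReal.ofReal (a i) • κ i)
  have hρ : IsProbabilityMeasure ρ := by
    constructor
    rw [Measure.sum_apply _ MeasurableSet.univ]
    have : ∀ i, (ENNReal.ofReal (a i) • κ i) Set.univ = ENNReal.ofReal (a i) := by
      intro i
      rw [Measure.smul_apply, measure_univ, smul_eq_mul, mul_one]
    simp_rw [this]
    rw [← ENNReal.ofReal_tsum_of_nonneg ha hs.summable, hs.tsum_eq, ENNReal.ofReal_one]
  refine ⟨ρ, hρ, fun t => ?_⟩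
  rw [charFun_apply_real]
  rw [integral_sum_measure (charFun_integrable ρ t)]
  apply tsum_congr
  intro i
  rw [integral_smul_measure, ← charFun_apply_real, hκφ i t, ENNReal.toReal_ofReal (ha i)]
  rfl

lemma summable_series (a : ℕ × ℕ × ℕ × ℕ → ℝ) (ha : ∀ i, 0 ≤ a i) (hs : Summable a)
    (z w : ℂ) (hz : ‖z‖ ≤ 1) (hw : ‖w‖ ≤ 1) : Summable (fun i => (a i : ℂ) * mono i z w) := by
  apply Summable.of_norm_bounded hs
  intro i
  rw [norm_mul, Complex.norm_real, Real.norm_of_nonneg (ha i)]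
  exact mul_le_of_le_one_right (ha i) (norm_mono_le i _ _ hz hw)

/-- Sufficiency: every power series with nonnegative coefficients summing to one operates. -/
theorem suff (a : ℕ × ℕ × ℕ × ℕ → ℝ) (ha : ∀ n, 0 ≤ a n) (hs : HasSum a 1) :
    Adm (fun z w => ∑' n, (a n : ℂ) * mono n z w) := by
  intro μ₁ μ₂ h₁ h₂
  obtain ⟨ν, hν, h⟩ := isCF_tsum a ha hs (fun i t => mono i (charFun μ₁ t) (charFun μ₂ t))
    (fun i => (isCF_charFun μ₁).mono (isCF_charFun μ₂) i)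
  exact ⟨ν, hν, h⟩

end Pool.Agent.Lib.MP_23fb81_pr
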