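import Mathlib
import Pool.Agent.Lib.MP_23fb81_pr.Defs
import Pool.Agent.Lib.MP_23fb81_pr.Suff
import Pool.Agent.Lib.MP_23fb81_pr.Boundary
import Pool.Agent.Lib.MP_23fb81_pr.Kernel

/-! Positivity of the Fourier coefficients on `Π ZMod (q i)`. -/

namespace Pool.Agent.Lib.MP_23fb81_pr

open Finset Complex MeasureTheory
open scoped ComplexConjugate Real Function

/-- if the characteristic function is `1` at `t` then `exp (i t x) = 1` almost surely. -/
theorem ae_exp_eq_one (ν : Measure ℝ) [IsProbabilityMeasure ν] (t : ℝ) (h : charFun ν t = 1) :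
    ∀ᵐ x : ℝ ∂ν, Complex.exp (t * x * I) = 1 := by
  have hint : Integrable (fun x : ℝ => Real.cos (t * x)) ν := by
    refine Integrable.of_bound (C := 1) (by fun_prop) ?_
    exact Filter.Eventually.of_forall fun x => by
      rw [Real.norm_eq_abs]; exact Real.abs_cos_le_one _
  have h1 : ∫ x, Real.cos (t * x) ∂ν = 1 := by
    have h2 : (charFun ν t).re = ∫ x, Real.cos (t * x) ∂ν := by
      rw [charFun_apply_real]
      have hi : Integrable (fun x : ℝ => Complex.exp (t * x * I)) ν := charFun_integrable ν t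
      have h3 := integral_re hi
      have h4 : ∀ x : ℝ, RCLike.re (Complex.exp (t * x * I)) = Real.cos (t * x) := by
        intro x
        have : Complex.exp (t * x * I) = Complex.exp (((t * x : ℝ) : ℂ) * I) := by push_cast; rfl
        rw [this]
        exact Complex.exp_ofReal_mul_I_re _
      simp only [h4] at h3
      rw [h3]
      rfl
    rw [← h2, h, Complex.one_re]
  have h5 : ∫ x, (1 - Real.cos (t * x)) ∂ν = 0 := by
    rw [integral_sub (integrable_const _) hint, h1]
    simp
  have h6 : (fun x : ℝ => 1 - Real.cos (t * x)) =ᵐ[ν] 0 := by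
    have hint' : Integrable (fun x : ℝ => 1 - Real.cos (t * x)) ν :=
      (integrable_const (1 : ℝ)).sub hint
    refine (integral_eq_zero_iff_of_nonneg (fun x => ?_) hint').mp h5
    simp only [Pi.zero_apply, sub_nonneg]
    exact Real.cos_le_one _
  filter_upwards [h6] with x hx
  simp only [Pi.zero_apply, sub_eq_zero] at hx
  have hs : Real.sin (t * x) = 0 := by
    have := Real.sin_sq_add_cos_sq (t * x)
    rw [← hx] at this
    nlinarith
  have : Complex.exp (t * x * I) = Complex.exp (((t * x : ℝ) : ℂ) * I) := by push_cast; rfl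
  rw [this, Complex.exp_mul_I, ← Complex.ofReal_cos, ← Complex.ofReal_sin, hs, ← hx]
  simp

theorem sum_zmod_eq_range {M : ℕ} [NeZero M] (f : ZMod M → ℂ) :
    ∑ y : ZMod M, f y = ∑ k ∈ range M, f (k : ZMod M) := by
  refine Finset.sum_nbij' (fun y => y.val) (fun k => (k : ZMod M)) ?_ ?_ ?_ ?_ ?_
  · intro y _; exact Finset.mem_range.mpr (ZMod.val_lt y)
  · intro k _; exact Finset.mem_univ _
  · intro y _; exact ZMod.natCast_zmod_val y
  · intro k hk; exact ZMod.val_cast_of_lt (Finset.mem_range.mp hk)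
  · intro y _; rw [ZMod.natCast_zmod_val y]

theorem sum_pi_eq_range {ι : Type*} [Fintype ι] [DecidableEq ι] (q : ι → ℕ) [∀ i, NeZero (q i)]
    (hq : Pairwise (Nat.Coprime on q)) (f : (∀ i, ZMod (q i)) → ℂ) :
    ∑ x : (∀ i, ZMod (q i)), f x = ∑ k ∈ range (∏ i, q i), f (fun i => (k : ZMod (q i))) := by
  have : NeZero (∏ i, q i) := ⟨Finset.prod_ne_zero_iff.mpr fun i _ => NeZero.ne (q i)⟩
  rw [← Equiv.sum_comp (ZMod.prodEquivPi q hq).toEquiv f]
  rw [sum_zmod_eq_range]
  refine Finset.sum_congr rfl fun k _ => ?_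
  congr 1
  funext i
  change ZMod.prodEquivPi q hq (k : ZMod (∏ i, q i)) i = _
  rw [ZMod.prodEquivPi_apply, map_natCast]

/-- the averages of the standard characters over the left / right coordinates -/
noncomputable def avg {n : ℕ} (q : Fin n → ℕ) [∀ i, NeZero (q i)] (x : ∀ i, ZMod (q i)) : ℂ :=
  ∑ j, ((1 / (n : ℝ) : ℝ) : ℂ) * ZMod.stdAddChar (x j)

theorem norm_avg_le_one {n : ℕ} (hn : 0 < n) (q : Fin n → ℕ) [∀ i, NeZero (q i)]
    (x : ∀ i, ZMod (q i)) : ‖avg q x‖ ≤ 1 := by
  unfold avg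
  refine (norm_sum_le _ _).trans ?_
  simp only [norm_mul, norm_stdAddChar, mul_one, Complex.norm_real]
  rw [Finset.sum_const, Finset.card_univ, Fintype.card_fin, nsmul_eq_mul, Real.norm_of_nonneg
    (by positivity)]
  have : (n : ℝ) ≠ 0 := by positivity
  field_simp
  exact le_refl _

/-- the measure `(1/n) Σ δ_{2π/q_j}` -/
noncomputable def muq {n : ℕ} (q : Fin n → ℕ) : Measure ℝ :=
  mix (fun _ : Fin n => 1 / (n : ℝ)) (fun j => 2 * π / q j)

theorem muq_prob {n : ℕ} (hn : 0 < n) (q : Fin n → ℕ) : IsProbabilityMeasure (muq q) := by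
  apply mix_prob
  · intro i; positivity
  · rw [Finset.sum_const, Finset.card_univ, Fintype.card_fin, nsmul_eq_mul]
    have : (n : ℝ) ≠ 0 := by positivity
    field_simp

theorem charFun_muq {n : ℕ} (q : Fin n → ℕ) [∀ i, NeZero (q i)] (k : ℕ) :
    charFun (muq q) (k : ℝ) = avg q (fun i => (k : ZMod (q i))) := by
  unfold muq avg
  rw [charFun_mix _ _ (fun i => by positivity)]
  refine Finset.sum_congr rfl fun j _ => ?_
  congr 1
  have h := ZMod.stdAddChar_coe (N := q j) (k : ℤ)
  rw [Int.cast_natCast] at h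
  rw [h]
  congr 1
  push_cast
  ring

theorem geom_of_pow_eq_one {y : ℂ} {M : ℕ} (hy : y ^ M = 1) :
    ∑ k ∈ range M, y ^ k = if y = 1 then (M : ℂ) else 0 := by
  split_ifs with h
  · rw [h]; simp
  · have h1 := mul_neg_geom_sum y M
    rw [hy, sub_self] at h1
    rcases mul_eq_zero.mp h1 with h2 | h2
    · exact absurd (by linear_combination -h2) h
    · exact h2

theorem positivity_aux (F : ℂ → ℂ → ℂ) (hF : Adm F) {n : ℕ} (hn : 0 < n)
    (q : Fin n ⊕ Fin n → ℕ) [∀ i, NeZero (q i)] (hq : Pairwise (Nat.Coprime on q))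
    (m : Fin n ⊕ Fin n → ℤ) :
    ∃ r : ℝ, 0 ≤ r ∧
      ∑ x : (∀ i, ZMod (q i)), F (avg (fun j => q (Sum.inl j)) (fun j => x (Sum.inl j)))
        (avg (fun j => q (Sum.inr j)) (fun j => x (Sum.inr j))) *
        ∏ i, ZMod.stdAddChar ((m i : ZMod (q i)) * x i) = r := by
  obtain ⟨ν, hν, hνF⟩ := hF (muq (fun j => q (Sum.inl j))) (muq (fun j => q (Sum.inr j)))
    (muq_prob hn _) (muq_prob hn _)
  set M := ∏ i, q i with hM
  have hM0 : M ≠ 0 := Finset.prod_ne_zero_iff.mpr fun i _ => NeZero.ne (q i)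
  set θ : ℝ := ∑ i, 2 * π * m i / q i with hθ
  -- the value of the product of characters
  have hchar : ∀ k : ℕ, ∏ i, ZMod.stdAddChar ((m i : ZMod (q i)) * (k : ZMod (q i)))
      = Complex.exp (k * θ * I) := by
    intro k
    have h1 : ∀ i, ZMod.stdAddChar ((m i : ZMod (q i)) * (k : ZMod (q i)))
        = Complex.exp (k * (2 * π * m i / q i) * I) := by
      intro i
      have h := ZMod.stdAddChar_coe (N := q i) (m i * (k : ℤ))
      rw [Int.cast_mul, Int.cast_natCast] at h
      rw [h]
      congr 1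
      push_cast
      ring
    simp only [h1]
    rw [← Complex.exp_sum, hθ, ← Finset.sum_mul, ← Finset.mul_sum]
    push_cast
    rfl
  -- `exp (i M θ) = 1`
  have hMθ : Complex.exp (M * θ * I) = 1 := by
    rw [← hchar M]
    apply Finset.prod_eq_one
    intro i _
    have : ((M : ℕ) : ZMod (q i)) = 0 :=
      (ZMod.natCast_eq_zero_iff _ _).mpr (Finset.dvd_prod_of_mem q (Finset.mem_univ i))
    rw [this, mul_zero, AddChar.map_zero_eq_one]
  -- `exp (i M x) = 1` a.e.
  have hcM : charFun ν (M : ℝ) = 1 := by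
    rw [hνF, charFun_muq, charFun_muq]
    have h1 : ∀ (f : Fin n → Fin n ⊕ Fin n), avg (fun j => q (f j))
        (fun i => ((M : ℕ) : ZMod (q (f i)))) = 1 := by
      intro f
      unfold avg
      have h2 : ∀ j, ZMod.stdAddChar ((M : ℕ) : ZMod (q (f j))) = 1 := by
        intro j
        have : ((M : ℕ) : ZMod (q (f j))) = 0 :=
          (ZMod.natCast_eq_zero_iff _ _).mpr (Finset.dvd_prod_of_mem q (Finset.mem_univ (f j)))
        rw [this, AddChar.map_zero_eq_one]
      simp only [h2, mul_one]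
      rw [Finset.sum_const, Finset.card_univ, Fintype.card_fin, nsmul_eq_mul]
      have : (n : ℂ) ≠ 0 := by
        have : (n : ℝ) ≠ 0 := by positivity
        exact_mod_cast this
      push_cast
      field_simp
    rw [h1 Sum.inl, h1 Sum.inr, hF.one_one]
  have hae := ae_exp_eq_one ν M hcM
  have hsum : ∑ x : (∀ i, ZMod (q i)), F (avg (fun j => q (Sum.inl j)) (fun j => x (Sum.inl j)))
        (avg (fun j => q (Sum.inr j)) (fun j => x (Sum.inr j))) *
        ∏ i, ZMod.stdAddChar ((m i : ZMod (q i)) * x i)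
      = ∑ k ∈ range M, charFun ν (k : ℝ) * Complex.exp (k * θ * I) := by
    rw [sum_pi_eq_range q hq]
    refine Finset.sum_congr rfl fun k _ => ?_
    rw [hνF, charFun_muq, charFun_muq, hchar k]
  rw [hsum]
  set g : ℝ → ℝ := fun x => if Complex.exp ((x + θ) * I) = 1 then (M : ℝ) else 0 with hg
  refine ⟨∫ x, g x ∂ν, integral_nonneg (fun x => by
    simp only [hg, Pi.zero_apply]; split_ifs <;> positivity), ?_⟩
  have h1 : ∀ k ∈ range M, charFun ν (k : ℝ) * Complex.exp (k * θ * I)
      = ∫ x : ℝ, Complex.exp ((x + θ) * I) ^ k ∂ν := by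
    intro k _
    rw [charFun_apply_real, ← integral_mul_const]
    congr 1
    funext x
    rw [← Complex.exp_add, ← Complex.exp_nat_mul]
    congr 1
    push_cast
    ring
  rw [Finset.sum_congr rfl h1, ← integral_finsetSum]
  · have hcoe : ((∫ x, g x ∂ν : ℝ) : ℂ) = ∫ x, ((g x : ℝ) : ℂ) ∂ν := integral_ofReal.symm
    rw [hcoe]
    apply integral_congr_ae
    filter_upwards [hae] with x hx
    have h2 : Complex.exp ((x + θ) * I) ^ M = 1 := by
      rw [← Complex.exp_nat_mul]
      have : (M : ℂ) * ((x + θ) * I) = (M : ℝ) * x * I + M * θ * I := by push_cast; ring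
      rw [this, Complex.exp_add, hx, hMθ, mul_one]
    rw [geom_of_pow_eq_one h2]
    simp only [hg]
    split_ifs <;> simp
  · intro k _
    refine Integrable.of_bound (C := 1) (by fun_prop) ?_
    exact Filter.Eventually.of_forall fun x => by
      rw [norm_pow]
      have : ((x : ℂ) + θ) * I = ((x + θ : ℝ) : ℂ) * I := by push_cast; ring
      rw [this, Complex.norm_exp_ofReal_mul_I, one_pow]

end Pool.Agent.Lib.MP_23fb81_pr
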