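import Mathlib
import Pool.Agent.Lib.MP_23fb81_pr.Positivity

/-! The law of large numbers on `Π ZMod (q i)` with product kernel weights. -/

namespace Pool.Agent.Lib.MP_23fb81_pr

open Finset Complex MeasureTheory
open scoped ComplexConjugate Real Function

section product

variable {ι : Type*} [Fintype ι] [DecidableEq ι] {X : ι → Type*} [∀ i, Fintype (X i)]

theorem sum_prod_eq (g : ∀ i, X i → ℂ) :
    ∑ x : (∀ i, X i), ∏ i, g i (x i) = ∏ i, ∑ y : X i, g i y := by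
  classical
  rw [Finset.prod_univ_sum, Fintype.piFinset_univ]

theorem sum_two (p : ∀ i, X i → ℂ) (f h : ∀ i, X i → ℂ) (i j : ι) :
    ∑ x : (∀ i, X i), (∏ k, p k (x k)) * (f i (x i) * h j (x j))
      = ∏ k, ∑ y : X k, p k y * ((if k = i then f k y else 1) * (if k = j then h k y else 1)) := by
  rw [← sum_prod_eq (fun k y => p k y * ((if k = i then f k y else 1) *
    (if k = j then h k y else 1)))]
  refine Finset.sum_congr rfl fun x _ => ?_
  rw [Finset.prod_mul_distrib, Finset.prod_mul_distrib, Finset.prod_ite_eq', Finset.prod_ite_eq',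
    if_pos (Finset.mem_univ _), if_pos (Finset.mem_univ _)]

/-- variance of a sum of independent centred variables -/
theorem variance_sum (p : ∀ i, X i → ℂ) (hp : ∀ i, ∑ y : X i, p i y = 1)
    (f : ∀ i, X i → ℂ) (S : Finset ι) (hf : ∀ i ∈ S, ∑ y : X i, p i y * f i y = 0) :
    ∑ x : (∀ i, X i), (∏ k, p k (x k)) * ((∑ i ∈ S, f i (x i)) * conj (∑ i ∈ S, f i (x i)))
      = ∑ i ∈ S, ∑ y : X i, p i y * (f i y * conj (f i y)) := by
  have h1 : ∀ x : (∀ i, X i), (∏ k, p k (x k)) * ((∑ i ∈ S, f i (x i)) * conj (∑ i ∈ S, f i (x i)))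
      = ∑ i ∈ S, ∑ j ∈ S, (∏ k, p k (x k)) * (f i (x i) * conj (f j (x j))) := by
    intro x
    rw [map_sum, Finset.sum_mul_sum, Finset.mul_sum]
    refine Finset.sum_congr rfl fun i _ => ?_
    rw [Finset.mul_sum]
  simp only [h1]
  rw [Finset.sum_comm]
  refine Finset.sum_congr rfl fun i hi => ?_
  rw [Finset.sum_comm]
  rw [Finset.sum_eq_single i]
  · -- the diagonal
    rw [sum_two p f (fun k y => conj (f k y)) i i]
    rw [Finset.prod_eq_single i]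
    · simp
    · intro k _ hk
      simp only [if_neg hk, mul_one, hp]
    · intro h; exact absurd (Finset.mem_univ _) h
  · intro j _ hj
    rw [sum_two p f (fun k y => conj (f k y)) i j]
    apply Finset.prod_eq_zero (Finset.mem_univ i)
    simp only [if_pos, if_neg hj.symm, mul_one]
    exact hf i hi
  · intro h; exact absurd hi h

end product

/-- the real kernel weight -/
noncomputable def kr (q : ℕ) [NeZero q] (K : ℕ) (z : ℂ) (x : ZMod q) : ℝ := (kw q K z x).re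

theorem kr_eq (q : ℕ) [NeZero q] (K : ℕ) (z : ℂ) (x : ZMod q) :
    ((kr q K z x : ℝ) : ℂ) = kw q K z x := by
  unfold kr
  rw [kw_eq, Complex.ofReal_re]

theorem kr_nonneg {ρ : ℝ} (hρ0 : 0 ≤ ρ) (hρ : ρ < 1) {K : ℕ}
    (hK : 2 * ρ ^ (K + 1) / (1 - ρ) ≤ (1 - ρ ^ 2) / 4) (q : ℕ) [NeZero q] {z : ℂ}
    (hz : ‖z‖ ≤ ρ) (x : ZMod q) : 0 ≤ kr q K z x := by
  obtain ⟨r, hr, h⟩ := kw_nonneg hρ0 hρ hK q hz x
  unfold kr
  rw [h, Complex.ofReal_re]
  exact hr

section weights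

variable {n : ℕ} (q : Fin n ⊕ Fin n → ℕ) [∀ i, NeZero (q i)] (K : ℕ) (z w : ℂ)

/-- `z` on the left coordinates and `w` on the right ones -/
def side {n : ℕ} (z w : ℂ) : Fin n ⊕ Fin n → ℂ := Sum.elim (fun _ => z) (fun _ => w)

/-- the product weight -/
noncomputable def W (x : ∀ i, ZMod (q i)) : ℝ := ∏ i, kr (q i) K (side z w i) (x i)

/-- left average -/
noncomputable def avL (x : ∀ i, ZMod (q i)) : ℂ :=
  avg (fun j => q (Sum.inl j)) (fun j => x (Sum.inl j))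

/-- right average -/
noncomputable def avR (x : ∀ i, ZMod (q i)) : ℂ :=
  avg (fun j => q (Sum.inr j)) (fun j => x (Sum.inr j))

theorem W_coe (x : ∀ i, ZMod (q i)) :
    ((W q K z w x : ℝ) : ℂ) = ∏ i, kw (q i) K (side z w i) (x i) := by
  unfold W
  rw [Complex.ofReal_prod]
  exact Finset.prod_congr rfl fun i _ => kr_eq _ _ _ _

theorem sum_W (hq : ∀ i, K + 1 < q i) : ∑ x, W q K z w x = 1 := by
  have h : ((∑ x, W q K z w x : ℝ) : ℂ) = 1 := by
    rw [Complex.ofReal_sum]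
    simp only [W_coe]
    rw [sum_prod_eq (fun i y => kw (q i) K (side z w i) y)]
    apply Finset.prod_eq_one
    intro i _
    exact sum_kw_zero (q i) K (hq i) _
  exact_mod_cast h

theorem sum_W_var_aux (hn : 0 < n) (hK : 1 ≤ K) (hq : ∀ i, K + 1 < q i) (e : Fin n ↪ Fin n ⊕ Fin n)
    (c : ℂ) (he : ∀ j, side z w (e j) = c) :
    ∑ x, W q K z w x * ‖avg (fun j => q (e j)) (fun j => x (e j)) - c‖ ^ 2
      = (1 - ‖c‖ ^ 2) / n := by
  have hn' : (n : ℂ) ≠ 0 := by exact_mod_cast hn.ne'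
  have hn'' : (n : ℝ) ≠ 0 := by positivity
  -- rewrite the average as a sum of centred variables
  have h1 : ∀ x : (∀ i, ZMod (q i)), avg (fun j => q (e j)) (fun j => x (e j)) - c
      = ∑ i ∈ Finset.univ.map e, (1 / (n : ℂ)) * (ZMod.stdAddChar (x i) - side z w i) := by
    intro x
    rw [Finset.sum_map]
    unfold avg
    simp only [he, mul_sub, Finset.sum_sub_distrib]
    rw [Finset.sum_const, Finset.card_univ, Fintype.card_fin, nsmul_eq_mul]
    push_cast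
    field_simp
  have h2 := variance_sum (X := fun i => ZMod (q i)) (fun i y => kw (q i) K (side z w i) y)
    (fun i => sum_kw_zero (q i) K (hq i) _)
    (fun i y => (1 / (n : ℂ)) * (ZMod.stdAddChar y - side z w i)) (Finset.univ.map e)
    (by
      intro i _
      have h3 : ∀ y : ZMod (q i), kw (q i) K (side z w i) y *
          ((1 / (n : ℂ)) * (ZMod.stdAddChar y - side z w i))
          = (1 / (n : ℂ)) * (kw (q i) K (side z w i) y * ZMod.stdAddChar y)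
            - (1 / (n : ℂ)) * side z w i * kw (q i) K (side z w i) y := by
        intro y; ring
      simp only [h3]
      rw [Finset.sum_sub_distrib, ← Finset.mul_sum, ← Finset.mul_sum,
        sum_kw_one (q i) K hK (hq i), sum_kw_zero (q i) K (hq i)]
      ring)
  have h4 : ((∑ x, W q K z w x * ‖avg (fun j => q (e j)) (fun j => x (e j)) - c‖ ^ 2 : ℝ) : ℂ)
      = ((1 - ‖c‖ ^ 2) / n : ℝ) := by
    rw [Complex.ofReal_sum]
    have h5 : ∀ x : (∀ i, ZMod (q i)),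
        ((W q K z w x * ‖avg (fun j => q (e j)) (fun j => x (e j)) - c‖ ^ 2 : ℝ) : ℂ)
        = (∏ i, kw (q i) K (side z w i) (x i)) *
          ((∑ i ∈ Finset.univ.map e, (1 / (n : ℂ)) * (ZMod.stdAddChar (x i) - side z w i)) *
            conj (∑ i ∈ Finset.univ.map e, (1 / (n : ℂ)) *
              (ZMod.stdAddChar (x i) - side z w i))) := by
      intro x
      rw [Complex.ofReal_mul, W_coe, ← h1 x, Complex.mul_conj, Complex.normSq_eq_norm_sq]
    simp only [h5]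
    rw [h2, Finset.sum_map]
    have h6 : ∀ j : Fin n, ∑ y : ZMod (q (e j)), kw (q (e j)) K (side z w (e j)) y *
        ((1 / (n : ℂ)) * (ZMod.stdAddChar y - side z w (e j)) *
          conj ((1 / (n : ℂ)) * (ZMod.stdAddChar y - side z w (e j))))
        = (1 / (n : ℂ)) ^ 2 * (1 - c * conj c) := by
      intro j
      rw [he j, ← sum_kw_var (q (e j)) K hK (hq (e j)) c, Finset.mul_sum]
      refine Finset.sum_congr rfl fun y _ => ?_
      rw [map_mul, map_div₀, map_one, Complex.conj_natCast]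
      ring
    rw [Finset.sum_congr rfl fun j _ => h6 j, Finset.sum_const, Finset.card_univ, Fintype.card_fin,
      nsmul_eq_mul, Complex.mul_conj, Complex.normSq_eq_norm_sq]
    push_cast
    field_simp
  exact_mod_cast h4

theorem sum_W_varL (hn : 0 < n) (hK : 1 ≤ K) (hq : ∀ i, K + 1 < q i) :
    ∑ x, W q K z w x * ‖avL q x - z‖ ^ 2 = (1 - ‖z‖ ^ 2) / n :=
  sum_W_var_aux q K z w hn hK hq ⟨Sum.inl, Sum.inl_injective⟩ z (fun _ => rfl)

theorem sum_W_varR (hn : 0 < n) (hK : 1 ≤ K) (hq : ∀ i, K + 1 < q i) :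
    ∑ x, W q K z w x * ‖avR q x - w‖ ^ 2 = (1 - ‖w‖ ^ 2) / n :=
  sum_W_var_aux q K z w hn hK hq ⟨Sum.inr, Sum.inr_injective⟩ w (fun _ => rfl)

/-- the approximating polynomial -/
noncomputable def B (F : ℂ → ℂ → ℂ) : ℂ := ∑ x, (W q K z w x : ℂ) * F (avL q x) (avR q x)

theorem W_nonneg {ρ : ℝ} (hρ0 : 0 ≤ ρ) (hρ : ρ < 1)
    (hK : 2 * ρ ^ (K + 1) / (1 - ρ) ≤ (1 - ρ ^ 2) / 4) (hz : ‖z‖ ≤ ρ) (hw : ‖w‖ ≤ ρ)
    (x : ∀ i, ZMod (q i)) : 0 ≤ W q K z w x := by
  apply Finset.prod_nonneg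
  intro i _
  apply kr_nonneg hρ0 hρ hK
  rcases i with i | i
  · exact hz
  · exact hw

theorem norm_B_le {F : ℂ → ℂ → ℂ} (hF : ∀ a b : ℂ, ‖a‖ ≤ 1 → ‖b‖ ≤ 1 → ‖F a b‖ ≤ 1)
    (hn : 0 < n) (hq : ∀ i, K + 1 < q i) {ρ : ℝ} (hρ0 : 0 ≤ ρ) (hρ : ρ < 1)
    (hKρ : 2 * ρ ^ (K + 1) / (1 - ρ) ≤ (1 - ρ ^ 2) / 4) (hz : ‖z‖ ≤ ρ) (hw : ‖w‖ ≤ ρ) :
    ‖B q K z w F‖ ≤ 1 := by
  unfold B
  refine (norm_sum_le _ _).trans ?_
  rw [← sum_W q K z w hq]
  refine Finset.sum_le_sum fun x _ => ?_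
  have h0 := W_nonneg q K z w hρ0 hρ hKρ hz hw x
  rw [norm_mul, Complex.norm_real, Real.norm_of_nonneg h0]
  have h1 := hF (avL q x) (avR q x) (norm_avg_le_one hn _ _) (norm_avg_le_one hn _ _)
  nlinarith

theorem norm_B_sub_le {F : ℂ → ℂ → ℂ} (hF : ∀ a b : ℂ, ‖a‖ ≤ 1 → ‖b‖ ≤ 1 → ‖F a b‖ ≤ 1)
    (hn : 0 < n) (hK : 1 ≤ K) (hq : ∀ i, K + 1 < q i) {ρ : ℝ} (hρ0 : 0 ≤ ρ) (hρ : ρ < 1)
    (hKρ : 2 * ρ ^ (K + 1) / (1 - ρ) ≤ (1 - ρ ^ 2) / 4) (hz : ‖z‖ ≤ ρ) (hw : ‖w‖ ≤ ρ)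
    {ε δ : ℝ} (hε : 0 ≤ ε) (hδ : 0 < δ)
    (hc : ∀ a b : ℂ, ‖a - z‖ < δ → ‖b - w‖ < δ → ‖F a b - F z w‖ ≤ ε) :
    ‖B q K z w F - F z w‖ ≤ ε + 4 / (δ ^ 2 * n) := by
  have hn' : (0 : ℝ) < n := by exact_mod_cast hn
  have h1 : B q K z w F - F z w = ∑ x, (W q K z w x : ℂ) * (F (avL q x) (avR q x) - F z w) := by
    unfold B
    simp only [mul_sub, Finset.sum_sub_distrib]
    rw [← Finset.sum_mul, ← Complex.ofReal_sum, sum_W q K z w hq]
    push_cast; ring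
  rw [h1]
  refine (norm_sum_le _ _).trans ?_
  have h2 : ∀ x : (∀ i, ZMod (q i)), ‖(W q K z w x : ℂ) * (F (avL q x) (avR q x) - F z w)‖
      ≤ ε * W q K z w x + 2 / δ ^ 2 * (W q K z w x * ‖avL q x - z‖ ^ 2)
        + 2 / δ ^ 2 * (W q K z w x * ‖avR q x - w‖ ^ 2) := by
    intro x
    have h0 := W_nonneg q K z w hρ0 hρ hKρ hz hw x
    rw [norm_mul, Complex.norm_real, Real.norm_of_nonneg h0]
    have h3 : ‖F (avL q x) (avR q x) - F z w‖
        ≤ ε + 2 / δ ^ 2 * ‖avL q x - z‖ ^ 2 + 2 / δ ^ 2 * ‖avR q x - w‖ ^ 2 := by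
      have hp : 0 < 2 / δ ^ 2 := by positivity
      have hbig : ‖F (avL q x) (avR q x) - F z w‖ ≤ 2 := by
        calc ‖F (avL q x) (avR q x) - F z w‖ ≤ ‖F (avL q x) (avR q x)‖ + ‖F z w‖ :=
              norm_sub_le _ _
          _ ≤ 1 + 1 := add_le_add (hF _ _ (norm_avg_le_one hn _ _) (norm_avg_le_one hn _ _))
              (hF _ _ (by linarith) (by linarith))
          _ = 2 := by norm_num
      have hLR : ∀ t : ℝ, δ ≤ t → 2 ≤ 2 / δ ^ 2 * t ^ 2 := by
        intro t ht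
        have : δ ^ 2 ≤ t ^ 2 := pow_le_pow_left₀ hδ.le ht 2
        rw [div_mul_eq_mul_div, le_div_iff₀ (by positivity)]
        linarith
      by_cases hL : ‖avL q x - z‖ < δ
      · by_cases hR : ‖avR q x - w‖ < δ
        · have := hc _ _ hL hR
          have : 0 ≤ 2 / δ ^ 2 * ‖avL q x - z‖ ^ 2 := by positivity
          have : 0 ≤ 2 / δ ^ 2 * ‖avR q x - w‖ ^ 2 := by positivity
          linarith
        · push Not at hR
          have := hLR _ hR
          have : 0 ≤ 2 / δ ^ 2 * ‖avL q x - z‖ ^ 2 := by positivity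
          linarith
      · push Not at hL
        have := hLR _ hL
        have : 0 ≤ 2 / δ ^ 2 * ‖avR q x - w‖ ^ 2 := by positivity
        linarith
    calc W q K z w x * ‖F (avL q x) (avR q x) - F z w‖
        ≤ W q K z w x * (ε + 2 / δ ^ 2 * ‖avL q x - z‖ ^ 2 + 2 / δ ^ 2 * ‖avR q x - w‖ ^ 2) :=
          mul_le_mul_of_nonneg_left h3 h0
      _ = _ := by ring
  refine (Finset.sum_le_sum fun x _ => h2 x).trans ?_
  rw [Finset.sum_add_distrib, Finset.sum_add_distrib, ← Finset.mul_sum, ← Finset.mul_sum,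
    ← Finset.mul_sum, sum_W q K z w hq, sum_W_varL q K z w hn hK hq, sum_W_varR q K z w hn hK hq]
  have h4 : ∀ c : ℂ, 2 / δ ^ 2 * ((1 - ‖c‖ ^ 2) / n) ≤ 2 / (δ ^ 2 * n) := by
    intro c
    rw [div_mul_div_comm]
    apply div_le_div_of_nonneg_right _ (by positivity)
    nlinarith [sq_nonneg ‖c‖]
  have h5 : (4 : ℝ) / (δ ^ 2 * n) = 2 / (δ ^ 2 * n) + 2 / (δ ^ 2 * n) := by ring
  rw [h5]
  have := h4 z
  have := h4 w
  linarith

end weights

end Pool.Agent.Lib.MP_23fb81_pr
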