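import Mathlib
import Pool.Agent.Lib.MP_23fb81_pr.LLN

/-! Expansion of the approximants into polynomials with nonnegative coefficients. -/

namespace Pool.Agent.Lib.MP_23fb81_pr

open Finset Complex MeasureTheory
open scoped ComplexConjugate Real Function

/-- polynomials in `z, z̄, w, w̄` with nonnegative coefficients -/
def PosPoly (P : ℂ → ℂ → ℂ) : Prop :=
  ∃ a : (ℕ × ℕ × ℕ × ℕ) →₀ ℝ, (∀ n, 0 ≤ a n) ∧
    ∀ z w, P z w = a.sum (fun n c => (c : ℂ) * mono n z w)

theorem PosPoly.zero : PosPoly (fun _ _ => 0) :=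
  ⟨0, fun _ => le_rfl, fun z w => by simp⟩

theorem PosPoly.add {P Q : ℂ → ℂ → ℂ} (hP : PosPoly P) (hQ : PosPoly Q) :
    PosPoly (fun z w => P z w + Q z w) := by
  obtain ⟨a, ha, haP⟩ := hP
  obtain ⟨b, hb, hbQ⟩ := hQ
  refine ⟨a + b, fun n => by rw [Finsupp.add_apply]; exact add_nonneg (ha n) (hb n), ?_⟩
  intro z w
  beta_reduce
  rw [haP, hbQ, Finsupp.sum_add_index]
  · intro n _; simp
  · intro n _ c d; push_cast; ring

theorem PosPoly.monomial (I : ℕ × ℕ × ℕ × ℕ) {r : ℝ} (hr : 0 ≤ r) :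
    PosPoly (fun z w => (r : ℂ) * mono I z w) := by
  classical
  refine ⟨Finsupp.single I r, ?_, ?_⟩
  · intro n
    rw [Finsupp.single_apply]
    split_ifs
    · exact hr
    · exact le_rfl
  · intro z w
    rw [Finsupp.sum_single_index]
    simp

theorem PosPoly.finset_sum {κ : Type*} (s : Finset κ) (P : κ → ℂ → ℂ → ℂ)
    (h : ∀ c ∈ s, PosPoly (P c)) : PosPoly (fun z w => ∑ c ∈ s, P c z w) := by
  classical
  induction s using Finset.induction_on with
  | empty => simpa using PosPoly.zero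
  | insert c s hc ih =>
    have h1 := (h c (Finset.mem_insert_self c s)).add
      (ih (fun d hd => h d (Finset.mem_insert_of_mem hd)))
    convert h1 using 3
    rw [Finset.sum_insert hc]

/-- exponents of `z` and `z̄` in `kmon z c` -/
def ka {K : ℕ} : KIdx K → ℕ
  | none => 0
  | some (k, true) => (k : ℕ) + 1
  | some (_, false) => 0

/-- exponents of `z` and `z̄` in `kmon z c` -/
def kb {K : ℕ} : KIdx K → ℕ
  | none => 0
  | some (_, true) => 0
  | some (k, false) => (k : ℕ) + 1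

theorem kmon_eq {K : ℕ} (z : ℂ) (c : KIdx K) : kmon z c = z ^ ka c * conj z ^ kb c := by
  rcases c with _ | ⟨k, b⟩
  · simp [kmon, ka, kb]
  · cases b <;> simp [kmon, ka, kb]

theorem prod_kmon {n K : ℕ} (z w : ℂ) (c : Fin n ⊕ Fin n → KIdx K) :
    ∏ i, kmon (side z w i) (c i) = mono (∑ j, ka (c (Sum.inl j)), ∑ j, kb (c (Sum.inl j)),
      ∑ j, ka (c (Sum.inr j)), ∑ j, kb (c (Sum.inr j))) z w := by
  rw [Fintype.prod_sum_type]
  simp only [side, Sum.elim_inl, Sum.elim_inr, kmon_eq]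
  rw [Finset.prod_mul_distrib, Finset.prod_mul_distrib, Finset.prod_pow_eq_pow_sum,
    Finset.prod_pow_eq_pow_sum, Finset.prod_pow_eq_pow_sum, Finset.prod_pow_eq_pow_sum]
  unfold mono
  ring

theorem B_posPoly (F : ℂ → ℂ → ℂ) (hF : Adm F) {n : ℕ} (hn : 0 < n)
    (q : Fin n ⊕ Fin n → ℕ) [∀ i, NeZero (q i)] (hq : Pairwise (Nat.Coprime on q)) (K : ℕ) :
    PosPoly (fun z w => B q K z w F) := by
  have h1 : ∀ z w : ℂ, B q K z w F = ∑ c : (Fin n ⊕ Fin n → KIdx K),
      (∏ i, (1 / (q i : ℂ))) * (∏ i, kmon (side z w i) (c i)) *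
        ∑ x : (∀ i, ZMod (q i)), F (avL q x) (avR q x) *
          ∏ i, ZMod.stdAddChar ((kfreq (c i) : ZMod (q i)) * x i) := by
    intro z w
    unfold B
    have h2 : ∀ x : (∀ i, ZMod (q i)), ((W q K z w x : ℝ) : ℂ) =
        ∑ c : (Fin n ⊕ Fin n → KIdx K), ∏ i, ((1 / (q i : ℂ)) * (kmon (side z w i) (c i) *
          ZMod.stdAddChar ((kfreq (c i) : ZMod (q i)) * x i))) := by
      intro x
      rw [W_coe, sum_prod_eq (X := fun _ : Fin n ⊕ Fin n => KIdx K)
        (fun i c => (1 / (q i : ℂ)) * (kmon (side z w i) c *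
          ZMod.stdAddChar ((kfreq c : ZMod (q i)) * x i)))]
      refine Finset.prod_congr rfl fun i _ => ?_
      unfold kw
      rw [Finset.mul_sum]
    simp only [h2, Finset.sum_mul]
    rw [Finset.sum_comm]
    refine Finset.sum_congr rfl fun c _ => ?_
    rw [Finset.mul_sum]
    refine Finset.sum_congr rfl fun x _ => ?_
    rw [Finset.prod_mul_distrib, Finset.prod_mul_distrib]
    ring
  have h3 : (fun z w => B q K z w F) = fun z w => ∑ c : (Fin n ⊕ Fin n → KIdx K),
      (∏ i, (1 / (q i : ℂ))) * (∏ i, kmon (side z w i) (c i)) *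
        ∑ x : (∀ i, ZMod (q i)), F (avL q x) (avR q x) *
          ∏ i, ZMod.stdAddChar ((kfreq (c i) : ZMod (q i)) * x i) := by
    funext z w; exact h1 z w
  rw [h3]
  apply PosPoly.finset_sum
  intro c _
  obtain ⟨r, hr, hsum⟩ := positivity_aux F hF hn q hq (fun i => kfreq (c i))
  have h4 : (fun z w => (∏ i, (1 / (q i : ℂ))) * (∏ i, kmon (side z w i) (c i)) *
        ∑ x : (∀ i, ZMod (q i)), F (avL q x) (avR q x) *
          ∏ i, ZMod.stdAddChar ((kfreq (c i) : ZMod (q i)) * x i))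
      = fun z w => (((∏ i, (1 / (q i : ℝ))) * r : ℝ) : ℂ) *
        mono (∑ j, ka (c (Sum.inl j)), ∑ j, kb (c (Sum.inl j)),
      ∑ j, ka (c (Sum.inr j)), ∑ j, kb (c (Sum.inr j))) z w := by
    funext z w
    rw [← prod_kmon]
    unfold avL avR
    rw [hsum]
    push_cast
    ring
  rw [h4]
  apply PosPoly.monomial
  apply mul_nonneg _ hr
  exact Finset.prod_nonneg fun i _ => by positivity

end Pool.Agent.Lib.MP_23fb81_pr
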