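import Mathlib
import Pool.Agent.Lib.MP_23fb81_pr.Expand

/-! The compactness argument: from the approximants to the power series. -/

namespace Pool.Agent.Lib.MP_23fb81_pr

open Finset Complex MeasureTheory Filter Topology
open scoped ComplexConjugate Real Function

/-- a family of `2n` distinct primes larger than `n + 1` -/
noncomputable def qn (n : ℕ) (i : Fin n ⊕ Fin n) : ℕ :=
  Nat.nth Nat.Prime (n + (finSumFinEquiv i : ℕ))

theorem qn_prime (n : ℕ) (i : Fin n ⊕ Fin n) : (qn n i).Prime := Nat.prime_nth_prime _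

instance (n : ℕ) (i : Fin n ⊕ Fin n) : NeZero (qn n i) := ⟨(qn_prime n i).ne_zero⟩

theorem qn_gt (n : ℕ) (i : Fin n ⊕ Fin n) : n + 1 < qn n i := by
  have h := Nat.add_two_le_nth_prime (n + (finSumFinEquiv i : ℕ))
  unfold qn
  omega

theorem qn_coprime (n : ℕ) : Pairwise (Nat.Coprime on (qn n)) := by
  intro i j hij
  refine (Nat.coprime_primes (qn_prime n i) (qn_prime n j)).mpr ?_
  intro h
  have h1 := Nat.nth_injective Nat.infinite_setOfPred_prime h
  have h2 : (finSumFinEquiv i : ℕ) = (finSumFinEquiv j : ℕ) := by omega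
  exact hij (finSumFinEquiv.injective (Fin.ext h2))

/-- the total degree -/
def deg (I : ℕ × ℕ × ℕ × ℕ) : ℕ := I.1 + I.2.1 + I.2.2.1 + I.2.2.2

theorem norm_mono_le_pow {ρ : ℝ} (I : ℕ × ℕ × ℕ × ℕ) {z w : ℂ} (hz : ‖z‖ ≤ ρ) (hw : ‖w‖ ≤ ρ) :
    ‖mono I z w‖ ≤ ρ ^ deg I := by
  unfold mono deg
  have hρ : 0 ≤ ρ := (norm_nonneg z).trans hz
  rw [norm_mul, norm_mul, norm_mul, norm_pow, norm_pow, norm_pow, norm_pow, RCLike.norm_conj,
    RCLike.norm_conj, pow_add, pow_add, pow_add]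
  gcongr

theorem mono_real (I : ℕ × ℕ × ℕ × ℕ) (r : ℝ) : mono I (r : ℂ) (r : ℂ) = ((r ^ deg I : ℝ) : ℂ) := by
  unfold mono deg
  rw [Complex.conj_ofReal]
  push_cast
  rw [pow_add, pow_add, pow_add]

theorem summable_pow_deg {t : ℝ} (ht0 : 0 ≤ t) (ht1 : t < 1) :
    Summable (fun I : ℕ × ℕ × ℕ × ℕ => t ^ deg I) := by
  have h1 := summable_geometric_of_lt_one ht0 ht1
  have hnn : 0 ≤ fun n : ℕ => t ^ n := fun n => by positivity
  have h2 := h1.mul_of_nonneg h1 hnn hnn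
  have h2nn : 0 ≤ fun x : ℕ × ℕ => t ^ x.1 * t ^ x.2 := fun x => by positivity
  have h3 := h1.mul_of_nonneg h2 hnn h2nn
  have h3nn : 0 ≤ fun x : ℕ × ℕ × ℕ => t ^ x.1 * (t ^ x.2.1 * t ^ x.2.2) := fun x => by positivity
  have h4 := h1.mul_of_nonneg h3 hnn h3nn
  refine h4.congr fun I => ?_
  unfold deg
  rw [pow_add, pow_add, pow_add]
  ring

/-- The series representation on the open bidisc, given continuity there. -/
theorem open_series (F : ℂ → ℂ → ℂ) (hF : Adm F)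
    (hcont : ∀ z w : ℂ, ‖z‖ < 1 → ‖w‖ < 1 → ∀ ε : ℝ, 0 < ε →
      ∃ δ : ℝ, 0 < δ ∧ ∀ a b : ℂ, ‖a - z‖ < δ → ‖b - w‖ < δ → ‖F a b - F z w‖ ≤ ε) :
    ∃ a : ℕ × ℕ × ℕ × ℕ → ℝ, (∀ n, 0 ≤ a n) ∧ Summable a ∧
      ∀ z w : ℂ, ‖z‖ < 1 → ‖w‖ < 1 → HasSum (fun n => (a n : ℂ) * mono n z w) (F z w) := by
  classical
  have hF1 : ∀ a b : ℂ, ‖a‖ ≤ 1 → ‖b‖ ≤ 1 → ‖F a b‖ ≤ 1 := fun a b ha hb => hF.norm_le_one a b ha hb
  -- coefficients of the approximants
  have hcoef : ∀ n : ℕ, ∃ a : (ℕ × ℕ × ℕ × ℕ) →₀ ℝ, (∀ I, 0 ≤ a I) ∧ (0 < n →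
      ∀ z w, B (qn n) n z w F = a.sum (fun I c => (c : ℂ) * mono I z w)) := by
    intro n
    rcases Nat.eq_zero_or_pos n with hn | hn
    · exact ⟨0, fun I => le_rfl, fun h => absurd h (by omega)⟩
    · obtain ⟨a, ha, h⟩ := B_posPoly F hF hn (qn n) (qn_coprime n) n
      exact ⟨a, ha, fun _ => h⟩
  choose A hA0 hAB using hcoef
  have hABt : ∀ n : ℕ, 0 < n → ∀ z w : ℂ,
      B (qn n) n z w F = ∑' I, (A n I : ℂ) * mono I z w := by
    intro n hn z w
    rw [hAB n hn z w, Finsupp.sum]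
    refine (tsum_eq_sum fun I hI => ?_).symm
    rw [Finsupp.notMem_support_iff.mp hI]
    simp
  -- the coefficients are bounded
  have hbound : ∀ r : ℝ, 0 ≤ r → r < 1 → ∀ᶠ n : ℕ in atTop, ∀ s : Finset (ℕ × ℕ × ℕ × ℕ),
      ∑ I ∈ s, A n I * r ^ deg I ≤ 1 := by
    intro r hr0 hr1
    filter_upwards [eventually_trunc hr0 hr1, eventually_gt_atTop 0] with n hn hn0 s
    have h1 := norm_B_le (qn n) n (r : ℂ) (r : ℂ) hF1 hn0 (qn_gt n) hr0 hr1 hn
      (by rw [Complex.norm_real, Real.norm_of_nonneg hr0])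
      (by rw [Complex.norm_real, Real.norm_of_nonneg hr0])
    rw [hAB n hn0, Finsupp.sum] at h1
    simp only [mono_real, ← Complex.ofReal_mul] at h1
    rw [← Complex.ofReal_sum, Complex.norm_real] at h1
    have h2 : ∑ I ∈ s, A n I * r ^ deg I ≤ ∑ I ∈ s ∪ (A n).support, A n I * r ^ deg I :=
      Finset.sum_le_sum_of_subset_of_nonneg Finset.subset_union_left
        (fun I _ _ => mul_nonneg (hA0 n I) (by positivity))
    have h3 : ∑ I ∈ s ∪ (A n).support, A n I * r ^ deg I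
        = ∑ I ∈ (A n).support, A n I * r ^ deg I := by
      symm
      apply Finset.sum_subset Finset.subset_union_right
      intro I _ hI
      rw [Finsupp.notMem_support_iff.mp hI, zero_mul]
    rw [h3] at h2
    exact h2.trans ((le_abs_self _).trans h1)
  -- the limit coefficients along an ultrafilter
  set 𝓤 : Ultrafilter ℕ := Filter.hyperfilter ℕ with h𝓤
  have h𝓤le : (𝓤 : Filter ℕ) ≤ atTop := by
    rw [← Nat.cofinite_eq_atTop]; exact Filter.hyperfilter_le_cofinite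
  have hlim : ∀ I, ∃ c : ℝ, 0 ≤ c ∧ Tendsto (fun n => A n I) 𝓤 (𝓝 c) := by
    intro I
    have h1 : ∀ᶠ n in (𝓤 : Filter ℕ), A n I ∈ Set.Icc (0 : ℝ) (2 ^ deg I) := by
      have h2 := (hbound (1 / 2) (by norm_num) (by norm_num)).filter_mono h𝓤le
      filter_upwards [h2] with n hn
      refine ⟨hA0 n I, ?_⟩
      have h3 := hn {I}
      rw [Finset.sum_singleton, one_div, inv_pow, ← div_eq_mul_inv,
        div_le_one (by positivity)] at h3
      exact h3
    obtain ⟨c, hc, hle⟩ := isCompact_iff_ultrafilter_le_nhds'.mp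
      (isCompact_Icc (a := (0 : ℝ)) (b := 2 ^ deg I)) (𝓤.map (fun n => A n I)) h1
    exact ⟨c, hc.1, hle⟩
  choose a ha0 hatend using hlim
  have hfin : ∀ s : Finset (ℕ × ℕ × ℕ × ℕ), ∑ I ∈ s, a I ≤ 1 := by
    intro s
    have h1 : ∀ r : ℝ, 0 ≤ r → r < 1 → ∑ I ∈ s, a I * r ^ deg I ≤ 1 := by
      intro r hr0 hr1
      have h2 : Tendsto (fun n => ∑ I ∈ s, A n I * r ^ deg I) 𝓤 (𝓝 (∑ I ∈ s, a I * r ^ deg I)) :=
        tendsto_finsetSum _ fun I _ => (hatend I).mul_const _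
      exact le_of_tendsto h2 (((hbound r hr0 hr1).filter_mono h𝓤le).mono fun n hn => hn s)
    have h3 : Tendsto (fun r : ℝ => ∑ I ∈ s, a I * r ^ deg I) (𝓝[<] 1)
        (𝓝 (∑ I ∈ s, a I * 1 ^ deg I)) := by
      have hc : Continuous (fun r : ℝ => ∑ I ∈ s, a I * r ^ deg I) := by fun_prop
      exact (hc.tendsto 1).mono_left nhdsWithin_le_nhds
    simp only [one_pow, mul_one] at h3
    refine le_of_tendsto h3 ?_
    have h4 : ∀ᶠ r : ℝ in 𝓝[<] 1, r ∈ Set.Ioo (0 : ℝ) 1 := Ioo_mem_nhdsLT (by norm_num)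
    filter_upwards [h4] with r hr
    exact h1 r hr.1.le hr.2
  have hsum : Summable a := summable_of_sum_le (fun I => ha0 I) hfin
  refine ⟨a, ha0, hsum, ?_⟩
  intro z w hz hw
  -- choose radii
  set ρ : ℝ := max ‖z‖ ‖w‖ with hρ
  have hρ0 : 0 ≤ ρ := (norm_nonneg z).trans (le_max_left _ _)
  have hρ1 : ρ < 1 := max_lt hz hw
  set r : ℝ := (1 + ρ) / 2 with hr
  have hr0 : 0 < r := by rw [hr]; linarith
  have hr1 : r < 1 := by rw [hr]; linarith
  have hρr : ρ / r < 1 := by rw [div_lt_one hr0, hr]; linarith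
  have hρr0 : 0 ≤ ρ / r := by positivity
  have hT : Tendsto (fun n => ∑' I, (A n I : ℂ) * mono I z w) 𝓤
      (𝓝 (∑' I, (a I : ℂ) * mono I z w)) := by
    refine tendsto_tsum_of_dominated_convergence (bound := fun I => (ρ / r) ^ deg I)
      (summable_pow_deg hρr0 hρr) ?_ ?_
    · intro I
      exact ((Complex.continuous_ofReal.tendsto _).comp (hatend I)).mul_const _
    · filter_upwards [(hbound r hr0.le hr1).filter_mono h𝓤le] with n hn I
      have h1 := hn {I}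
      rw [Finset.sum_singleton] at h1
      have h2 : ‖mono I z w‖ ≤ ρ ^ deg I := norm_mono_le_pow I (le_max_left _ _) (le_max_right _ _)
      rw [norm_mul, Complex.norm_real, Real.norm_of_nonneg (hA0 n I), div_pow,
        le_div_iff₀ (by positivity)]
      calc A n I * ‖mono I z w‖ * r ^ deg I = (A n I * r ^ deg I) * ‖mono I z w‖ := by ring
        _ ≤ 1 * ρ ^ deg I := by
            apply mul_le_mul h1 h2 (norm_nonneg _) (by norm_num)
        _ = ρ ^ deg I := one_mul _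
  have hB : Tendsto (fun n : ℕ => B (qn n) n z w F) atTop (𝓝 (F z w)) := by
    rw [Metric.tendsto_atTop]
    intro ε hε
    obtain ⟨δ, hδ, hcδ⟩ := hcont z w hz hw (ε / 2) (by linarith)
    have h1 : ∀ᶠ n : ℕ in atTop, dist (B (qn n) n z w F) (F z w) < ε := by
      obtain ⟨N, hN⟩ := exists_nat_gt (8 / (δ ^ 2 * ε))
      filter_upwards [eventually_trunc hρ0 hρ1, eventually_gt_atTop 0, eventually_ge_atTop N]
        with n hn hn0 hnN
      have h2 := norm_B_sub_le (qn n) n z w hF1 hn0 hn0 (qn_gt n) hρ0 hρ1 hn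
        (le_max_left _ _) (le_max_right _ _) (by linarith : (0 : ℝ) ≤ ε / 2) hδ hcδ
      rw [dist_eq_norm]
      refine lt_of_le_of_lt h2 ?_
      have h3 : (8 / (δ ^ 2 * ε)) < n := lt_of_lt_of_le hN (by exact_mod_cast hnN)
      have hn0' : (0 : ℝ) < n := by exact_mod_cast hn0
      have h4 : 4 / (δ ^ 2 * n) < ε / 2 := by
        rw [div_lt_iff₀ (by positivity)] at h3 ⊢
        nlinarith
      linarith
    exact eventually_atTop.mp h1
  have hB' : Tendsto (fun n : ℕ => ∑' I, (A n I : ℂ) * mono I z w) 𝓤 (𝓝 (F z w)) := by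
    refine (hB.mono_left h𝓤le).congr' ?_
    filter_upwards [(eventually_gt_atTop 0).filter_mono h𝓤le] with n hn
    exact hABt n hn z w
  have heq : F z w = ∑' I, (a I : ℂ) * mono I z w := tendsto_nhds_unique hB' hT
  rw [heq]
  exact (summable_series a ha0 hsum z w hz.le hw.le).hasSum

end Pool.Agent.Lib.MP_23fb81_pr
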