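import Pool.Agent.Lib.MP_23fb81_pr.Bridge
import Pool.Agent.Lib.MP_23fb81_pr.Limit
import Pool.Agent.Lib.MP_23fb81_pr.Continuity

open scoped ComplexConjugate

namespace Pool.Agent.Lib.MP_23fb81_pr

theorem characterisation (F : Disc × Disc → ℂ) :
    Admissible F ↔ ∃ a : ℕ × ℕ × ℕ × ℕ → ℝ, (∀ n, 0 ≤ a n) ∧ HasSum a 1 ∧
      ∀ x y : Disc, HasSum (fun n : ℕ × ℕ × ℕ × ℕ => (a n : ℂ) * (x : ℂ) ^ n.1 *
        conj (x : ℂ) ^ n.2.1 * (y : ℂ) ^ n.2.2.1 * conj (y : ℂ) ^ n.2.2.2) (F (x, y)) :=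
  assemble (fun G hG => open_series G hG (fun _ _ hz hw _ hε => hG.continuity hz hw hε)) F

end Pool.Agent.Lib.MP_23fb81_pr
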