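import Pool.Agent.Lib.MP_23fb81_pr.Boundary

set_option autoImplicit false

open MeasureTheory ComplexConjugate Filter Topology

namespace Pool.Agent.Lib.MP_23fb81_pr

lemma norm_exp_real_mul (a : ℝ) : ‖Complex.exp (a * Complex.I)‖ = 1 :=
  Complex.norm_exp_ofReal_mul_I a

lemma norm_sub_exp_sq (a b : ℝ) :
    ‖Complex.exp (a * Complex.I) - Complex.exp (b * Complex.I)‖ ^ 2 = 2 - 2 * Real.cos (a - b) := by
  have h : ‖Complex.exp (a * Complex.I) - Complex.exp (b * Complex.I)‖ ^ 2 =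
      (Real.cos a - Real.cos b) ^ 2 + (Real.sin a - Real.sin b) ^ 2 := by
    rw [← Complex.normSq_eq_norm_sq, Complex.normSq_apply]
    simp only [Complex.sub_re, Complex.sub_im, Complex.exp_ofReal_mul_I_re,
      Complex.exp_ofReal_mul_I_im]
    ring
  rw [h, Real.cos_sub]
  have h1 := Real.sin_sq_add_cos_sq a
  have h2 := Real.sin_sq_add_cos_sq b
  nlinarith

/-- Krein's inequality for characteristic functions. -/
theorem krein (ν : Measure ℝ) [IsProbabilityMeasure ν] (s t : ℝ) :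
    ‖charFun ν s - charFun ν t‖ ^ 2 ≤ 2 * (1 - (charFun ν (s - t)).re) := by
  have hs := charFun_integrable ν s
  have ht := charFun_integrable ν t
  have hst := charFun_integrable ν (s - t)
  set g : ℝ → ℝ := fun x => ‖Complex.exp (s * x * Complex.I) - Complex.exp (t * x * Complex.I)‖
    with hg
  have hgi : Integrable g ν := (hs.sub ht).norm
  have hgsq : ∀ x, g x ^ 2 = 2 - 2 * (Complex.exp ((s - t : ℝ) * x * Complex.I)).re := by
    intro x
    rw [hg]
    have e1 : (s * x * Complex.I : ℂ) = ((s * x : ℝ) : ℂ) * Complex.I := by push_cast; ring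
    have e2 : (t * x * Complex.I : ℂ) = ((t * x : ℝ) : ℂ) * Complex.I := by push_cast; ring
    have e3 : (((s - t : ℝ) : ℂ) * x * Complex.I : ℂ) = ((s * x - t * x : ℝ) : ℂ) * Complex.I := by
      push_cast; ring
    simp only
    rw [e1, e2, e3, norm_sub_exp_sq, Complex.exp_ofReal_mul_I_re]
  have hgsqi : Integrable (fun x => g x ^ 2) ν := by
    simp_rw [hgsq]
    exact (integrable_const _).sub (hst.re.const_mul 2)
  set c : ℝ := ∫ x, g x ∂ν with hc
  have h1 : ‖charFun ν s - charFun ν t‖ ≤ c := by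
    rw [charFun_apply_real, charFun_apply_real, ← integral_sub hs ht]
    exact norm_integral_le_integral_norm _
  have hc0 : 0 ≤ c := integral_nonneg (fun x => norm_nonneg _)
  have h2 : c ^ 2 ≤ ∫ x, g x ^ 2 ∂ν := by
    have h3 : 0 ≤ ∫ x, (g x - c) ^ 2 ∂ν := integral_nonneg (fun x => sq_nonneg _)
    have h4 : ∫ x, (g x - c) ^ 2 ∂ν = (∫ x, g x ^ 2 ∂ν) - 2 * c * c + c ^ 2 := by
      have : ∀ x, (g x - c) ^ 2 = g x ^ 2 - 2 * c * g x + c ^ 2 := fun x => by ring
      simp_rw [this]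
      have hi1 : Integrable (fun x => 2 * c * g x) ν := hgi.const_mul _
      have hi2 : Integrable (fun x => g x ^ 2 - 2 * c * g x) ν := hgsqi.sub hi1
      rw [integral_add hi2 (integrable_const _),
        integral_sub hgsqi hi1, integral_const_mul]
      simp [← hc]
    nlinarith
  have h5 : ∫ x, g x ^ 2 ∂ν = 2 * (1 - (charFun ν (s - t)).re) := by
    simp_rw [hgsq]
    have hi3 : Integrable (fun x : ℝ => 2 * (Complex.exp ((s - t : ℝ) * x * Complex.I)).re) ν :=
      hst.re.const_mul 2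
    rw [integral_sub (integrable_const _) hi3, integral_const_mul]
    have h6 : ∫ x, (Complex.exp ((s - t : ℝ) * x * Complex.I)).re ∂ν = (charFun ν (s - t)).re := by
      rw [charFun_apply_real]
      exact integral_re hst
    rw [h6]
    simp
    ring
  calc ‖charFun ν s - charFun ν t‖ ^ 2 ≤ c ^ 2 := pow_le_pow_left₀ (norm_nonneg _) h1 2
    _ ≤ ∫ x, g x ^ 2 ∂ν := h2
    _ = _ := h5

/-- `G (1 - η) (1 - η)` is close to `1` for some small `η > 0`. -/
theorem Adm.exists_eta {G : ℂ → ℂ → ℂ} (hG : Adm G) (ε : ℝ) (hε : 0 < ε) (c : ℝ) (hc : 0 < c) :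
    ∃ η : ℝ, 0 < η ∧ η < c ∧ η < 1 ∧ 2 * (1 - (G ((1 - η : ℝ) : ℂ) ((1 - η : ℝ) : ℂ)).re) < ε := by
  have hp : ∀ i : Fin 2, (0:ℝ) ≤ (![1/2, 1/2] : Fin 2 → ℝ) i := by
    intro i
    fin_cases i <;> norm_num
  have hsum : ∑ i : Fin 2, (![1/2, 1/2] : Fin 2 → ℝ) i = 1 := by
    rw [Fin.sum_univ_two]
    show (1:ℝ)/2 + 1/2 = 1
    norm_num
  have hprob := mix_prob (![1/2, 1/2] : Fin 2 → ℝ) ![1, -1] hp hsum
  set μ := mix (![1/2, 1/2] : Fin 2 → ℝ) ![1, -1] with hμ
  have hcf : ∀ t : ℝ, charFun μ t = (Real.cos t : ℂ) := by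
    intro t
    rw [hμ, charFun_mix _ _ hp, Fin.sum_univ_two]
    show (((1:ℝ)/2 : ℝ) : ℂ) * Complex.exp (t * ((1:ℝ):ℂ) * Complex.I) +
      (((1:ℝ)/2 : ℝ) : ℂ) * Complex.exp (t * ((-1:ℝ):ℂ) * Complex.I) = _
    rw [Complex.ofReal_cos, Complex.cos]
    push_cast
    have e1 : (t : ℂ) * 1 * Complex.I = t * Complex.I := by ring
    have e2 : (t : ℂ) * (-1) * Complex.I = -t * Complex.I := by ring
    rw [e1, e2]
    ring
  obtain ⟨ν, hν, hνG⟩ := hG μ μ hprob hprob
  have hcont : Continuous (fun t : ℝ => 2 * (1 - (charFun ν t).re)) := by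
    have h : Continuous (charFun ν) := continuous_charFun
    exact continuous_const.mul (continuous_const.sub (Complex.continuous_re.comp h))
  have h0 : 2 * (1 - (charFun ν 0).re) = 0 := by simp
  have hcontc : Continuous (fun t : ℝ => 1 - Real.cos t) := by fun_prop
  have ev1 : ∀ᶠ t in 𝓝 (0:ℝ), 2 * (1 - (charFun ν t).re) < ε := by
    apply (hcont.tendsto 0).eventually_lt_const
    rw [h0]; exact hε
  have ev2 : ∀ᶠ t in 𝓝 (0:ℝ), 1 - Real.cos t < min c 1 := by
    apply (hcontc.tendsto 0).eventually_lt_const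
    simp [hc]
  obtain ⟨δ, hδ, hball⟩ := Metric.eventually_nhds_iff.mp (ev1.and ev2)
  set t := min (δ / 2) 1 with ht
  have ht0 : 0 < t := by positivity
  have htδ : dist t 0 < δ := by
    rw [Real.dist_eq, sub_zero, abs_of_pos ht0]
    calc t ≤ δ / 2 := min_le_left _ _
      _ < δ := by linarith
  obtain ⟨h1, h2⟩ := hball htδ
  refine ⟨1 - Real.cos t, ?_, lt_of_lt_of_le h2 (min_le_left _ _),
    lt_of_lt_of_le h2 (min_le_right _ _), ?_⟩
  · have : Real.cos t < Real.cos 0 := by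
      apply Real.cos_lt_cos_of_nonneg_of_le_pi le_rfl _ ht0
      have : t ≤ 1 := min_le_right _ _
      linarith [Real.pi_gt_three]
    rw [Real.cos_zero] at this
    linarith
  · rw [hνG t, hcf t] at h1
    have : ((1 - (1 - Real.cos t) : ℝ) : ℂ) = (Real.cos t : ℂ) := by
      congr 1; ring
    rw [this]
    exact h1

end Pool.Agent.Lib.MP_23fb81_pr
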