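import Pool.Agent.Lib.MP_23fb81_pr.Krein

set_option autoImplicit false

open MeasureTheory ComplexConjugate Filter Topology

namespace Pool.Agent.Lib.MP_23fb81_pr

/-- Orthogonality of characters of `ℤ/m`. -/
lemma orth_zero (m : ℕ) (hm : 0 < m) (l : ℤ) (h : ¬ (m:ℤ) ∣ l) :
    ∑ j ∈ Finset.range m, Complex.exp (2 * Real.pi * Complex.I * l / m) ^ j = 0 := by
  have hm0 : (m:ℂ) ≠ 0 := by exact_mod_cast hm.ne'
  set ρ := Complex.exp (2 * Real.pi * Complex.I * l / m) with hρ
  have h1 : ρ ^ m = 1 := by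
    rw [hρ, ← Complex.exp_nat_mul]
    have : (m:ℂ) * (2 * Real.pi * Complex.I * l / m) = l * (2 * Real.pi * Complex.I) := by
      field_simp
    rw [this]
    exact Complex.exp_int_mul_two_pi_mul_I l
  have h2 : ρ ≠ 1 := by
    intro h3
    rw [hρ, Complex.exp_eq_one_iff] at h3
    obtain ⟨n, hn⟩ := h3
    apply h
    have hπ : (2 * Real.pi * Complex.I : ℂ) ≠ 0 := by
      simp [Real.pi_ne_zero, Complex.I_ne_zero]
    have h4 : (l : ℂ) = m * n := by
      field_simp at hn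
      have h5 : (2 * Real.pi * Complex.I : ℂ) * l = (2 * Real.pi * Complex.I : ℂ) * (m * n) := by
        linear_combination (2 * Complex.I * Real.pi) * hn
      exact mul_left_cancel₀ hπ h5
    exact ⟨n, by exact_mod_cast h4⟩
  have h6 := geom_sum_eq h2 m
  rw [h6, h1]
  simp

/-- Truncated Poisson kernel. -/
noncomputable def kern (K : ℕ) (v u : ℂ) : ℝ :=
  1 + 2 * (∑ k ∈ Finset.Icc 1 K, (v * conj u) ^ k).re

lemma kern_nonneg (K : ℕ) (v u : ℂ) (hu : ‖u‖ = 1) (hv : ‖v‖ < 1)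
    (hK : 2 * ‖v‖ ^ (K + 1) ≤ 1 - ‖v‖) : 0 ≤ kern K v u := by
  set w := v * conj u with hw
  set r := ‖v‖ with hr
  have hwr : ‖w‖ = r := by rw [hw, norm_mul, RCLike.norm_conj, hu, mul_one]
  have hr0 : 0 ≤ r := norm_nonneg _
  have hw1 : w ≠ 1 := by
    intro h
    rw [h] at hwr
    simp at hwr
    linarith
  have hw1' : 1 - w ≠ 0 := sub_ne_zero.mpr (Ne.symm hw1)
  have hsum : ∑ k ∈ Finset.Icc 1 K, w ^ k = (w - w ^ (K + 1)) / (1 - w) := by
    rw [eq_div_iff hw1']
    induction K with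
    | zero => simp
    | succ K ih =>
      clear hK
      rw [Finset.sum_Icc_succ_top (by omega), add_mul]
      have : ∀ K : ℕ, (∑ k ∈ Finset.Icc 1 K, w ^ k) * (1 - w) = w - w ^ (K + 1) := by
        intro K
        induction K with
        | zero => simp
        | succ K ih2 =>
          rw [Finset.sum_Icc_succ_top (by omega), add_mul, ih2]
          ring
      rw [this K]
      ring
  unfold kern
  rw [← hw, hsum]
  have h1 : (1:ℝ) + 2 * ((w - w ^ (K + 1)) / (1 - w)).re =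
      ((1 + w) / (1 - w)).re - 2 * (w ^ (K + 1) / (1 - w)).re := by
    have : (1 + w) / (1 - w) - 2 * (w ^ (K + 1) / (1 - w)) = 1 + 2 * ((w - w ^ (K + 1)) / (1 - w)) := by
      field_simp
      ring
    have h2 := congrArg Complex.re this
    simp only [Complex.sub_re, Complex.add_re, Complex.one_re] at h2
    have h3 : (2 * (w ^ (K + 1) / (1 - w))).re = 2 * (w ^ (K + 1) / (1 - w)).re := by
      simp
    have h4 : (2 * ((w - w ^ (K + 1)) / (1 - w))).re = 2 * ((w - w ^ (K + 1)) / (1 - w)).re := by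
      simp
    rw [h3, h4] at h2
    linarith
  rw [h1]
  set d := ‖1 - w‖ with hd
  have hd0 : 0 < d := norm_pos_iff.mpr hw1'
  have hd1 : d ≤ 1 + r := by
    calc d ≤ ‖(1:ℂ)‖ + ‖w‖ := norm_sub_le _ _
      _ = 1 + r := by rw [norm_one, hwr]
  have hre : ((1 + w) / (1 - w)).re = (1 - r ^ 2) / d ^ 2 := by
    rw [Complex.div_re]
    have hn : Complex.normSq (1 - w) = d ^ 2 := by rw [Complex.normSq_eq_norm_sq]
    have hn2 : Complex.normSq w = r ^ 2 := by rw [Complex.normSq_eq_norm_sq, hwr]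
    rw [hn]
    rw [← add_div]
    congr 1
    rw [← hn2, Complex.normSq_apply]
    simp
    ring
  have hre2 : (w ^ (K + 1) / (1 - w)).re ≤ r ^ (K + 1) / d := by
    calc (w ^ (K + 1) / (1 - w)).re ≤ ‖w ^ (K + 1) / (1 - w)‖ := Complex.re_le_norm _
      _ = r ^ (K + 1) / d := by rw [norm_div, norm_pow, hwr]
  rw [hre]
  have h5 : (1 - r) / d ≤ (1 - r ^ 2) / d ^ 2 := by
    rw [div_le_div_iff₀ hd0 (by positivity)]
    have : (1 - r) * d ^ 2 ≤ (1 - r) * (d * (1 + r)) := by
      apply mul_le_mul_of_nonneg_left _ (by linarith)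
      nlinarith
    nlinarith
  have h6 : 2 * (r ^ (K + 1) / d) ≤ (1 - r) / d := by
    have : 2 * (r ^ (K + 1) / d) = (2 * r ^ (K + 1)) / d := by ring
    rw [this]
    exact div_le_div_of_nonneg_right hK hd0.le
  linarith

lemma kern_eq (K : ℕ) (v u : ℂ) :
    (kern K v u : ℂ) = 1 + ∑ k ∈ Finset.Icc 1 K, (v ^ k * conj u ^ k + conj v ^ k * u ^ k) := by
  unfold kern
  push_cast
  rw [Complex.re_eq_add_conj]
  simp only [map_sum, map_pow, map_mul, Complex.conj_conj]
  rw [Finset.sum_add_distrib]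
  simp only [mul_pow]
  ring

/-- The `l`-th power of the primitive `m`-th root of unity. -/
noncomputable def rt (m : ℕ) (l : ℤ) : ℂ := Complex.exp (2 * Real.pi * Complex.I * l / m)

lemma rt_zero (m : ℕ) : rt m 0 = 1 := by simp [rt]

lemma rt_add (m : ℕ) (a b : ℤ) : rt m (a + b) = rt m a * rt m b := by
  unfold rt
  rw [← Complex.exp_add]
  congr 1
  push_cast
  ring

lemma rt_pow (m : ℕ) (a : ℤ) (k : ℕ) : rt m a ^ k = rt m (k * a) := by
  induction k with
  | zero => simp [rt_zero]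
  | succ k ih =>
    rw [pow_succ, ih, ← rt_add]
    congr 1
    push_cast
    ring

lemma conj_rt (m : ℕ) (a : ℤ) : conj (rt m a) = rt m (-a) := by
  unfold rt
  rw [← Complex.exp_conj]
  congr 1
  simp only [map_div₀, map_mul, Complex.conj_I, Complex.conj_ofReal, map_natCast, map_intCast,
    map_ofNat]
  push_cast
  ring

lemma norm_rt (m : ℕ) (a : ℤ) : ‖rt m a‖ = 1 := by
  unfold rt
  have : (2 * Real.pi * Complex.I * a / m : ℂ) = ((2 * Real.pi * a / m : ℝ) : ℂ) * Complex.I := by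
    push_cast; ring
  rw [this, Complex.norm_exp_ofReal_mul_I]

lemma sum_rt (m : ℕ) (hm : 0 < m) (l : ℤ) (h : ¬ (m:ℤ) ∣ l) :
    ∑ j ∈ Finset.range m, rt m (j * l) = 0 := by
  rw [← orth_zero m hm l h]
  apply Finset.sum_congr rfl
  intro j _
  rw [← rt_pow]
  rfl

lemma not_dvd_aux {m : ℕ} {l : ℤ} (h1 : l ≠ 0) (h2 : |l| < m) : ¬ (m:ℤ) ∣ l := by
  intro h
  have := Int.le_of_dvd (abs_pos.mpr h1) ((dvd_abs _ _).mpr h)
  omega

/-- Every point of the open disc is a convex combination of `m`-th roots of unity, `m` large. -/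
theorem exists_weights (v : ℂ) (hv : ‖v‖ < 1) :
    ∃ m₀ : ℕ, ∀ m : ℕ, m₀ ≤ m → ∃ p : ℕ → ℝ, (∀ j, 0 ≤ p j) ∧ ∑ j ∈ Finset.range m, p j = 1 ∧
      ∑ j ∈ Finset.range m, (p j : ℂ) * rt m j = v := by
  have hlim : Tendsto (fun K : ℕ => 2 * ‖v‖ ^ (K + 1)) atTop (𝓝 (2 * 0)) :=
    ((tendsto_pow_atTop_nhds_zero_of_lt_one (norm_nonneg v) hv).comp
      (tendsto_add_atTop_nat 1)).const_mul 2
  rw [mul_zero] at hlim
  obtain ⟨K, hK, hK1⟩ := ((hlim.eventually_le_const (show (0:ℝ) < 1 - ‖v‖ by linarith)).and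
    (eventually_ge_atTop 1)).exists
  refine ⟨K + 3, fun m hm => ?_⟩
  have hm0 : 0 < m := by omega
  have hmc : (m : ℂ) ≠ 0 := by exact_mod_cast hm0.ne'
  have hmr : (m : ℝ) ≠ 0 := by exact_mod_cast hm0.ne'
  have hkern : ∀ j : ℕ, (kern K v (rt m j) : ℂ) =
      1 + ∑ k ∈ Finset.Icc 1 K, (v ^ k * rt m (j * (-k)) + conj v ^ k * rt m (j * k)) := by
    intro j
    rw [kern_eq]
    congr 1
    apply Finset.sum_congr rfl
    intro k _
    rw [conj_rt, rt_pow, rt_pow]
    congr 3 <;> ring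
  refine ⟨fun j => kern K v (rt m j) / m, fun j => ?_, ?_, ?_⟩
  · exact div_nonneg (kern_nonneg K v _ (norm_rt m j) hv hK) (by positivity)
  · rw [← Finset.sum_div]
    rw [div_eq_one_iff_eq hmr]
    have : ((∑ j ∈ Finset.range m, kern K v (rt m j) : ℝ) : ℂ) = (m : ℂ) := by
      push_cast
      simp_rw [hkern]
      rw [Finset.sum_add_distrib, Finset.sum_comm]
      simp only [Finset.sum_const, Finset.card_range, nsmul_eq_mul, mul_one]
      rw [add_eq_left]
      apply Finset.sum_eq_zero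
      intro k hk
      rw [Finset.mem_Icc] at hk
      rw [Finset.sum_add_distrib, ← Finset.mul_sum, ← Finset.mul_sum]
      rw [sum_rt m hm0 (-k) (not_dvd_aux (by omega) (by rw [abs_neg, abs_of_nonneg] <;> omega)),
        sum_rt m hm0 k (not_dvd_aux (by omega) (by rw [abs_of_nonneg] <;> omega))]
      ring
    exact_mod_cast this
  · have h1 : ∀ j : ℕ, (((kern K v (rt m j) / m : ℝ)) : ℂ) * rt m j =
        (1 / (m:ℂ)) * (rt m (j * 1) + ∑ k ∈ Finset.Icc 1 K,
          (v ^ k * rt m (j * (1 - k)) + conj v ^ k * rt m (j * (1 + k)))) := by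
      intro j
      rw [Complex.ofReal_div, Complex.ofReal_natCast, hkern]
      rw [div_mul_eq_mul_div, div_eq_mul_inv, one_div, mul_comm _ ((m:ℂ)⁻¹)]
      congr 1
      rw [add_mul, one_mul, mul_one, Finset.sum_mul]
      congr 1
      apply Finset.sum_congr rfl
      intro k _
      rw [add_mul, mul_assoc, mul_assoc, ← rt_add, ← rt_add]
      congr 3 <;> ring
    simp_rw [h1]
    rw [← Finset.mul_sum, Finset.sum_add_distrib, Finset.sum_comm]
    rw [sum_rt m hm0 1 (not_dvd_aux (by omega) (by simp; omega)), zero_add]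
    rw [Finset.sum_eq_single_of_mem 1 (by simp [hK1])]
    · rw [Finset.sum_add_distrib, ← Finset.mul_sum, ← Finset.mul_sum]
      rw [sum_rt m hm0 (1 + (1:ℕ)) (not_dvd_aux (by omega) (by rw [abs_of_nonneg] <;> omega))]
      simp [rt_zero]
      field_simp
    · intro k hk hk1
      rw [Finset.mem_Icc] at hk
      rw [Finset.sum_add_distrib, ← Finset.mul_sum, ← Finset.mul_sum]
      rw [sum_rt m hm0 (1 - k) (not_dvd_aux (by omega) (by rw [abs_lt]; constructor <;> omega)),
        sum_rt m hm0 (1 + k) (not_dvd_aux (by omega) (by rw [abs_lt]; constructor <;> omega))]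
      ring

end Pool.Agent.Lib.MP_23fb81_pr
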